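import Mathlib

namespace Pool.Agent.TH345.LUR

open Filter Topology Metric Set Submodule

/-- Subadditive, absolutely homogeneous functions. -/
structure IsSemi {X : Type*} [AddCommGroup X] [Module ℝ X] (p : X → ℝ) : Prop where
  add : ∀ x y, p (x + y) ≤ p x + p y
  smul : ∀ (c : ℝ) x, p (c • x) = |c| * p x

namespace IsSemi

variable {X : Type*} [AddCommGroup X] [Module ℝ X] {p q : X → ℝ}

theorem zero (hp : IsSemi p) : p 0 = 0 := by
  have := hp.smul 0 0
  simpa using this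

theorem neg (hp : IsSemi p) (x : X) : p (-x) = p x := by
  have := hp.smul (-1) x
  simpa using this

theorem nonneg (hp : IsSemi p) (x : X) : 0 ≤ p x := by
  have h1 := hp.add x (-x)
  rw [add_neg_cancel, hp.zero, hp.neg] at h1
  linarith

theorem smul_const (hp : IsSemi p) (a : ℝ) : IsSemi (fun x => a * p x) ∨ a < 0 := by
  by_cases ha : 0 ≤ a
  · left
    refine ⟨fun x y => ?_, fun c x => ?_⟩
    · have := mul_le_mul_of_nonneg_left (hp.add x y) ha
      linarith
    · show a * p (c • x) = |c| * (a * p x)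
      rw [hp.smul]; ring
  · right; linarith

theorem const_mul (hp : IsSemi p) {a : ℝ} (ha : 0 ≤ a) : IsSemi (fun x => a * p x) := by
  refine ⟨fun x y => ?_, fun c x => ?_⟩
  · have := mul_le_mul_of_nonneg_left (hp.add x y) ha
    linarith
  · show a * p (c • x) = |c| * (a * p x)
    rw [hp.smul]; ring

theorem add' (hp : IsSemi p) (hq : IsSemi q) : IsSemi (fun x => p x + q x) := by
  refine ⟨fun x y => ?_, fun c x => ?_⟩
  · have h1 := hp.add x y
    have h2 := hq.add x y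
    show p (x + y) + q (x + y) ≤ p x + q x + (p y + q y)
    linarith
  · show p (c • x) + q (c • x) = |c| * (p x + q x)
    rw [hp.smul, hq.smul]; ring

theorem sum {ι : Type*} (A : Finset ι) (p : ι → X → ℝ) (hp : ∀ i ∈ A, IsSemi (p i)) :
    IsSemi (fun x => ∑ i ∈ A, p i x) := by
  refine ⟨fun x y => ?_, fun c x => ?_⟩
  · show ∑ i ∈ A, p i (x + y) ≤ ∑ i ∈ A, p i x + ∑ i ∈ A, p i y
    rw [← Finset.sum_add_distrib]
    exact Finset.sum_le_sum fun i hi => (hp i hi).add x y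
  · show ∑ i ∈ A, p i (c • x) = |c| * ∑ i ∈ A, p i x
    rw [Finset.mul_sum]
    exact Finset.sum_congr rfl fun i hi => (hp i hi).smul c x

theorem iSup {ι : Type*} (p : ι → X → ℝ) (hp : ∀ i, IsSemi (p i))
    (hb : ∀ x, BddAbove (range fun i => p i x)) : IsSemi (fun x => ⨆ i, p i x) := by
  rcases isEmpty_or_nonempty ι with h | h
  · refine ⟨fun x y => ?_, fun c x => ?_⟩ <;> simp
  refine ⟨fun x y => ?_, fun c x => ?_⟩
  · refine ciSup_le fun i => ?_
    refine ((hp i).add x y).trans ?_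
    exact add_le_add (le_ciSup (hb x) i) (le_ciSup (hb y) i)
  · show ⨆ i, p i (c • x) = |c| * ⨆ i, p i x
    rw [Real.mul_iSup_of_nonneg (abs_nonneg c)]
    congr 1
    ext i
    exact (hp i).smul c x

end IsSemi

theorem isSemi_abs {X : Type*} [NormedAddCommGroup X] [NormedSpace ℝ X] (f : X →L[ℝ] ℝ) :
    IsSemi (fun x => |f x|) := by
  refine ⟨fun x y => ?_, fun c x => ?_⟩
  · show |f (x + y)| ≤ |f x| + |f y|
    rw [map_add]; exact abs_add_le _ _
  · show |f (c • x)| = |c| * |f x|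
    rw [map_smul, smul_eq_mul, abs_mul]

theorem isSemi_norm {X : Type*} [NormedAddCommGroup X] [NormedSpace ℝ X] :
    IsSemi (fun x : X => ‖x‖) := by
  refine ⟨norm_add_le, fun c x => ?_⟩
  show ‖c • x‖ = |c| * ‖x‖
  rw [norm_smul, Real.norm_eq_abs]

theorem isSemi_infDist {X : Type*} [NormedAddCommGroup X] [NormedSpace ℝ X]
    (W : Submodule ℝ X) : IsSemi (fun x : X => infDist x (W : Set X)) := by
  have key : ∀ x : X, infDist x (W : Set X) = ‖(Submodule.Quotient.mk x : X ⧸ W)‖ := by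
    intro x
    exact (QuotientAddGroup.norm_mk (S := W.toAddSubgroup) x).symm
  refine ⟨fun x y => ?_, fun c x => ?_⟩
  · rw [key, key, key, Submodule.Quotient.mk_add]
    exact norm_add_le _ _
  · show infDist (c • x) (W : Set X) = |c| * infDist x (W : Set X)
    rw [key, key, Submodule.Quotient.mk_smul, norm_smul, Real.norm_eq_abs]

section l2

variable {X : Type*} [AddCommGroup X] [Module ℝ X] {ι : Type*} (q : ι → X → ℝ)

/-- The square sum of a family of seminorms. -/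
noncomputable def l2sum (x : X) : ℝ := Real.sqrt (∑' i, q i x ^ 2)

variable {q}

omit [AddCommGroup X] [Module ℝ X] in
theorem l2sum_sq (x : X) : l2sum q x ^ 2 = ∑' i, q i x ^ 2 :=
  Real.sq_sqrt (tsum_nonneg fun _ => sq_nonneg _)

omit [AddCommGroup X] [Module ℝ X] in
theorem l2sum_nonneg (x : X) : 0 ≤ l2sum q x := Real.sqrt_nonneg _

theorem isSemi_l2sum (hq : ∀ i, IsSemi (q i)) (hs : ∀ x, Summable fun i => q i x ^ 2) :
    IsSemi (l2sum q) := by
  refine ⟨fun x y => ?_, fun c x => ?_⟩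
  · have hx : Summable fun i => q i x ^ (2 : ℝ) := by simpa using hs x
    have hy : Summable fun i => q i y ^ (2 : ℝ) := by simpa using hs y
    have h := Real.Lp_add_le_tsum_of_nonneg (p := 2) (by norm_num)
      (fun i => (hq i).nonneg x) (fun i => (hq i).nonneg y) hx hy
    obtain ⟨hsum, hle⟩ := h
    simp only [Real.rpow_two, ← Real.sqrt_eq_rpow] at hle hsum
    refine le_trans ?_ hle
    apply Real.sqrt_le_sqrt
    refine Summable.tsum_le_tsum (fun i => ?_) (hs (x + y)) hsum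
    exact pow_le_pow_left₀ ((hq i).nonneg _) ((hq i).add x y) 2
  · unfold l2sum
    have : (fun i => q i (c • x) ^ 2) = fun i => |c| ^ 2 * q i x ^ 2 := by
      ext i
      rw [(hq i).smul, mul_pow]
    rw [this, tsum_mul_left, Real.sqrt_mul (sq_nonneg _), Real.sqrt_sq (abs_nonneg c)]

theorem l2sum_defect (hq : ∀ i, IsSemi (q i)) (hs : ∀ x, Summable fun i => q i x ^ 2)
    (x y : X) (i : ι) :
    2 * q i x ^ 2 + 2 * q i y ^ 2 - q i (y + x) ^ 2 ≤
      2 * l2sum q x ^ 2 + 2 * l2sum q y ^ 2 - l2sum q (y + x) ^ 2 := by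
  rw [l2sum_sq, l2sum_sq, l2sum_sq]
  have hsum : Summable fun i => 2 * q i x ^ 2 + 2 * q i y ^ 2 - q i (y + x) ^ 2 :=
    (((hs x).mul_left 2).add ((hs y).mul_left 2)).sub (hs (y + x))
  have hnn : ∀ i, 0 ≤ 2 * q i x ^ 2 + 2 * q i y ^ 2 - q i (y + x) ^ 2 := by
    intro i
    have h1 := (hq i).add y x
    have h2 := (hq i).nonneg (y + x)
    have h3 : q i (y + x) ^ 2 ≤ (q i y + q i x) ^ 2 := pow_le_pow_left₀ h2 h1 2
    nlinarith [sq_nonneg (q i x - q i y)]
  have h1 := hsum.le_tsum i (fun j _ => hnn j)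
  have h2 : ∑' i, (2 * q i x ^ 2 + 2 * q i y ^ 2 - q i (y + x) ^ 2) =
      2 * ∑' i, q i x ^ 2 + 2 * ∑' i, q i y ^ 2 - ∑' i, q i (y + x) ^ 2 := by
    rw [Summable.tsum_sub (((hs x).mul_left 2).add ((hs y).mul_left 2)) (hs (y + x)),
      Summable.tsum_add ((hs x).mul_left 2) ((hs y).mul_left 2), tsum_mul_left, tsum_mul_left]
  rw [← h2]
  exact h1

theorem defect_tendsto (hq : ∀ i, IsSemi (q i)) (hs : ∀ x, Summable fun i => q i x ^ 2)
    (x : X) (y : ℕ → X) (hx : l2sum q x = 1) (hy : ∀ n, l2sum q (y n) = 1)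
    (h : Tendsto (fun n => l2sum q (y n + x)) atTop (𝓝 2)) (i : ι) :
    Tendsto (fun n => 2 * q i x ^ 2 + 2 * q i (y n) ^ 2 - q i (y n + x) ^ 2) atTop (𝓝 0) := by
  have hD : Tendsto (fun n => 2 * l2sum q x ^ 2 + 2 * l2sum q (y n) ^ 2 -
      l2sum q (y n + x) ^ 2) atTop (𝓝 0) := by
    have h1 : Tendsto (fun n => 2 * l2sum q x ^ 2 + 2 * l2sum q (y n) ^ 2 -
      l2sum q (y n + x) ^ 2) atTop (𝓝 (2 * 1 ^ 2 + 2 * 1 ^ 2 - 2 ^ 2)) := by
      simp only [hx, hy]
      exact tendsto_const_nhds.sub (h.pow 2)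
    have h2 : (2 * 1 ^ 2 + 2 * 1 ^ 2 - 2 ^ 2 : ℝ) = 0 := by norm_num
    rwa [h2] at h1
  refine tendsto_of_tendsto_of_tendsto_of_le_of_le tendsto_const_nhds hD ?_ ?_
  · intro n
    have h1 := (hq i).add (y n) x
    have h2 := (hq i).nonneg (y n + x)
    have h3 : q i (y n + x) ^ 2 ≤ (q i (y n) + q i x) ^ 2 := pow_le_pow_left₀ h2 h1 2
    show (0 : ℝ) ≤ _
    nlinarith [sq_nonneg (q i x - q i (y n))]
  · intro n
    exact l2sum_defect hq hs x (y n) i

theorem tendsto_coord (hq : ∀ i, IsSemi (q i)) (hs : ∀ x, Summable fun i => q i x ^ 2)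
    (x : X) (y : ℕ → X) (hx : l2sum q x = 1) (hy : ∀ n, l2sum q (y n) = 1)
    (h : Tendsto (fun n => l2sum q (y n + x)) atTop (𝓝 2)) (i : ι) :
    Tendsto (fun n => q i (y n)) atTop (𝓝 (q i x)) := by
  have hd := defect_tendsto hq hs x y hx hy h i
  have h1 : Tendsto (fun n => (q i (y n) - q i x) ^ 2) atTop (𝓝 0) := by
    refine tendsto_of_tendsto_of_tendsto_of_le_of_le tendsto_const_nhds hd ?_ ?_
    · intro n; exact sq_nonneg _
    · intro n
      have h1 := (hq i).add (y n) x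
      have h2 := (hq i).nonneg (y n + x)
      have h3 : q i (y n + x) ^ 2 ≤ (q i (y n) + q i x) ^ 2 := pow_le_pow_left₀ h2 h1 2
      show (q i (y n) - q i x) ^ 2 ≤ 2 * q i x ^ 2 + 2 * q i (y n) ^ 2 - q i (y n + x) ^ 2
      nlinarith
  have h2 : Tendsto (fun n => |q i (y n) - q i x|) atTop (𝓝 0) := by
    have := h1.sqrt
    simp only [Real.sqrt_sq_eq_abs, Real.sqrt_zero] at this
    exact this
  have h4 : Tendsto (fun n => q i (y n) - q i x) atTop (𝓝 0) :=
    (tendsto_zero_iff_abs_tendsto_zero _).mpr h2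
  have := h4.add_const (q i x)
  simpa using this

end l2

end Pool.Agent.TH345.LUR
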