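import Mathlib
import Pool.Agent.TH345.LUR.Renorm

namespace Pool.Agent.TH345.LUR

open Filter Topology Metric Set Submodule

variable {X : Type*} [NormedAddCommGroup X] [NormedSpace ℝ X] {Γ : Type*}
  (f : Γ → X →L[ℝ] ℝ) (v : Γ → X)

/-- `S_A(x) + (m+1)⁻¹ d(x, span v(A))`. -/
noncomputable def gA (A : Finset Γ) (m : ℕ) (x : X) : ℝ :=
  (∑ γ ∈ A, |f γ x|) + (1 / ((m : ℝ) + 1)) * infDist x (span ℝ (v '' (A : Set Γ)) : Set X)

theorem isSemi_gA (A : Finset Γ) (m : ℕ) : IsSemi (gA f v A m) :=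
  (IsSemi.sum A (fun γ x => |f γ x|) fun γ _ => isSemi_abs (f γ)).add'
    ((isSemi_infDist _).const_mul (by positivity))

/-- The supremum of `gA` over the sets with at most `n` elements. -/
noncomputable def G (n m : ℕ) (x : X) : ℝ :=
  ⨆ A : {A : Finset Γ // A.card ≤ n}, gA f v A.1 m x

variable {f v} {C : ℝ}

theorem gA_le (H1 : ∀ x (A : Finset Γ), ∑ γ ∈ A, |f γ x| ≤ C * ‖x‖) (A : Finset Γ) (m : ℕ)
    (x : X) : gA f v A m x ≤ (C + 1) * ‖x‖ := by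
  have h1 := H1 x A
  have h2 : infDist x (span ℝ (v '' (A : Set Γ)) : Set X) ≤ ‖x‖ := by
    have := infDist_le_dist_of_mem (x := x) (zero_mem (span ℝ (v '' (A : Set Γ))))
    rwa [dist_zero_right] at this
  have h3 : 1 / ((m : ℝ) + 1) ≤ 1 := by
    rw [div_le_one (by positivity)]
    linarith [(Nat.cast_nonneg m : (0 : ℝ) ≤ m)]
  have h4 : (1 / ((m : ℝ) + 1)) * infDist x (span ℝ (v '' (A : Set Γ)) : Set X) ≤ 1 * ‖x‖ :=
    mul_le_mul h3 h2 infDist_nonneg zero_le_one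
  unfold gA
  linarith

theorem G_bdd (H1 : ∀ x (A : Finset Γ), ∑ γ ∈ A, |f γ x| ≤ C * ‖x‖) (n m : ℕ) (x : X) :
    BddAbove (range fun A : {A : Finset Γ // A.card ≤ n} => gA f v A.1 m x) :=
  ⟨(C + 1) * ‖x‖, by rintro _ ⟨A, rfl⟩; exact gA_le H1 A.1 m x⟩

theorem isSemi_G (H1 : ∀ x (A : Finset Γ), ∑ γ ∈ A, |f γ x| ≤ C * ‖x‖) (n m : ℕ) :
    IsSemi (G f v n m) :=
  IsSemi.iSup _ (fun A => isSemi_gA f v A.1 m) (G_bdd H1 n m)

theorem G_le (H1 : ∀ x (A : Finset Γ), ∑ γ ∈ A, |f γ x| ≤ C * ‖x‖) (n m : ℕ) (x : X) :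
    G f v n m x ≤ (C + 1) * ‖x‖ := by
  have : Nonempty {A : Finset Γ // A.card ≤ n} := ⟨⟨∅, by simp⟩⟩
  exact ciSup_le fun A => gA_le H1 A.1 m x

/-- The family of seminorms. -/
noncomputable def fam (f : Γ → X →L[ℝ] ℝ) (v : Γ → X) : (Unit ⊕ (Γ ⊕ ℕ × ℕ)) → X → ℝ
  | .inl _ => fun x => ‖x‖
  | .inr (.inl γ) => fun x => |f γ x|
  | .inr (.inr p) => fun x => ((1 / 2 : ℝ) ^ p.1 * (1 / 2) ^ p.2) * G f v p.1 p.2 x

theorem isSemi_fam (H1 : ∀ x (A : Finset Γ), ∑ γ ∈ A, |f γ x| ≤ C * ‖x‖) (i) :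
    IsSemi (fam f v i) := by
  rcases i with u | γ | p
  · exact isSemi_norm
  · exact isSemi_abs (f γ)
  · exact (isSemi_G H1 p.1 p.2).const_mul (by positivity)

theorem summable_f (H1 : ∀ x (A : Finset Γ), ∑ γ ∈ A, |f γ x| ≤ C * ‖x‖) (x : X) :
    Summable fun γ => |f γ x| :=
  summable_of_sum_le (fun _ => abs_nonneg _) (H1 x)

theorem hasSum_f_sq (H1 : ∀ x (A : Finset Γ), ∑ γ ∈ A, |f γ x| ≤ C * ‖x‖) (x : X) :
    (Summable fun γ => |f γ x| ^ 2) ∧ ∑' γ, |f γ x| ^ 2 ≤ (C * ‖x‖) ^ 2 := by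
  have hC : 0 ≤ C * ‖x‖ := by simpa using H1 x ∅
  have h1 : ∀ γ, |f γ x| ≤ C * ‖x‖ := fun γ => by simpa using H1 x {γ}
  have h2 : ∀ γ, |f γ x| ^ 2 ≤ (C * ‖x‖) * |f γ x| := by
    intro γ
    rw [sq]
    exact mul_le_mul_of_nonneg_right (h1 γ) (abs_nonneg _)
  have h3 : Summable fun γ => (C * ‖x‖) * |f γ x| := (summable_f H1 x).mul_left _
  have h4 : Summable fun γ => |f γ x| ^ 2 := Summable.of_nonneg_of_le (fun _ => sq_nonneg _) h2 h3
  refine ⟨h4, ?_⟩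
  calc ∑' γ, |f γ x| ^ 2 ≤ ∑' γ, (C * ‖x‖) * |f γ x| := h4.tsum_le_tsum h2 h3
    _ = (C * ‖x‖) * ∑' γ, |f γ x| := tsum_mul_left
    _ ≤ (C * ‖x‖) * (C * ‖x‖) := by
      refine mul_le_mul_of_nonneg_left ?_ hC
      exact (summable_f H1 x).tsum_le_of_sum_le (H1 x)
    _ = _ := by ring

theorem hasSum_G_sq (H1 : ∀ x (A : Finset Γ), ∑ γ ∈ A, |f γ x| ≤ C * ‖x‖) (x : X) :
    (Summable fun p : ℕ × ℕ => (((1 / 2 : ℝ) ^ p.1 * (1 / 2) ^ p.2) * G f v p.1 p.2 x) ^ 2) ∧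
    ∑' p : ℕ × ℕ, (((1 / 2 : ℝ) ^ p.1 * (1 / 2) ^ p.2) * G f v p.1 p.2 x) ^ 2 ≤
      4 * ((C + 1) * ‖x‖) ^ 2 := by
  have hs : Summable fun n : ℕ => (1 / 2 : ℝ) ^ n := summable_geometric_two
  have hs2 : Summable fun p : ℕ × ℕ => (1 / 2 : ℝ) ^ p.1 * (1 / 2) ^ p.2 :=
    hs.mul_of_nonneg hs (fun _ => by positivity) (fun _ => by positivity)
  have ht2 : ∑' p : ℕ × ℕ, (1 / 2 : ℝ) ^ p.1 * (1 / 2) ^ p.2 = 4 := by
    have := hs.tsum_mul_tsum hs hs2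
    rw [← this, tsum_geometric_two]
    norm_num
  have hb : ∀ p : ℕ × ℕ, (((1 / 2 : ℝ) ^ p.1 * (1 / 2) ^ p.2) * G f v p.1 p.2 x) ^ 2 ≤
      ((1 / 2 : ℝ) ^ p.1 * (1 / 2) ^ p.2) * ((C + 1) * ‖x‖) ^ 2 := by
    intro p
    have h1 : (0 : ℝ) ≤ (1 / 2 : ℝ) ^ p.1 * (1 / 2) ^ p.2 := by positivity
    have h2 : (1 / 2 : ℝ) ^ p.1 * (1 / 2) ^ p.2 ≤ 1 := by
      have a1 : (1 / 2 : ℝ) ^ p.1 ≤ 1 := pow_le_one₀ (by norm_num) (by norm_num)
      have a2 : (1 / 2 : ℝ) ^ p.2 ≤ 1 := pow_le_one₀ (by norm_num) (by norm_num)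
      calc (1 / 2 : ℝ) ^ p.1 * (1 / 2) ^ p.2 ≤ 1 * 1 := mul_le_mul a1 a2 (by positivity) (by norm_num)
        _ = 1 := by norm_num
    have h3 := G_le (v := v) H1 p.1 p.2 x
    have h4 := (isSemi_G (v := v) H1 p.1 p.2).nonneg x
    rw [mul_pow]
    refine mul_le_mul ?_ (pow_le_pow_left₀ h4 h3 2) (sq_nonneg _) h1
    rw [sq]
    calc _ ≤ ((1 / 2 : ℝ) ^ p.1 * (1 / 2) ^ p.2) * 1 := mul_le_mul_of_nonneg_left h2 h1
      _ = _ := mul_one _
  have hs3 : Summable fun p : ℕ × ℕ =>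
      ((1 / 2 : ℝ) ^ p.1 * (1 / 2) ^ p.2) * ((C + 1) * ‖x‖) ^ 2 := hs2.mul_right _
  have hs4 := Summable.of_nonneg_of_le (fun _ => sq_nonneg _) hb hs3
  refine ⟨hs4, ?_⟩
  calc _ ≤ ∑' p : ℕ × ℕ, ((1 / 2 : ℝ) ^ p.1 * (1 / 2) ^ p.2) * ((C + 1) * ‖x‖) ^ 2 :=
        hs4.tsum_le_tsum hb hs3
    _ = 4 * ((C + 1) * ‖x‖) ^ 2 := by rw [tsum_mul_right, ht2]

theorem summable_fam (H1 : ∀ x (A : Finset Γ), ∑ γ ∈ A, |f γ x| ≤ C * ‖x‖) (x : X) :
    Summable fun i => fam f v i x ^ 2 :=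
  Summable.sum (fun i => fam f v i x ^ 2) (hasSum_fintype _).summable
    (Summable.sum (fun i => fam f v (Sum.inr i) x ^ 2) (hasSum_f_sq H1 x).1
      (hasSum_G_sq H1 x).1)

theorem l2sum_fam_le (H1 : ∀ x (A : Finset Γ), ∑ γ ∈ A, |f γ x| ≤ C * ‖x‖) (x : X) :
    l2sum (fam f v) x ≤ (1 + |C| + 2 * |C + 1|) * ‖x‖ := by
  have h3 := (hasSum_f_sq H1 x).1
  have h4 := (hasSum_G_sq (v := v) H1 x).1
  have h2 : Summable fun i => fam f v (Sum.inr i) x ^ 2 :=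
    Summable.sum (fun i => fam f v (Sum.inr i) x ^ 2) h3 h4
  have h1 : Summable fun i : Unit => fam f v (Sum.inl i) x ^ 2 := (hasSum_fintype _).summable
  have e1 : ∑' i, fam f v i x ^ 2 = ‖x‖ ^ 2 + (∑' γ, |f γ x| ^ 2 +
      ∑' p : ℕ × ℕ, (((1 / 2 : ℝ) ^ p.1 * (1 / 2) ^ p.2) * G f v p.1 p.2 x) ^ 2) := by
    rw [Summable.tsum_sum (f := fun i => fam f v i x ^ 2) h1 h2,
      Summable.tsum_sum (f := fun i => fam f v (Sum.inr i) x ^ 2) h3 h4]
    congr 1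
    rw [tsum_fintype]
    simp [fam]
  have b1 := (hasSum_f_sq H1 x).2
  have b2 := (hasSum_G_sq (v := v) H1 x).2
  apply Real.sqrt_le_iff.mpr
  refine ⟨by positivity, ?_⟩
  rw [e1]
  have c1 : C ^ 2 = |C| ^ 2 := (sq_abs C).symm
  have c2 : (C + 1) ^ 2 = |C + 1| ^ 2 := (sq_abs _).symm
  rw [mul_pow] at b1 b2
  rw [c1] at b1
  rw [c2] at b2
  have p1 := abs_nonneg C
  have p2 := abs_nonneg (C + 1)
  have p3 := norm_nonneg x
  have e2 : ((1 + |C| + 2 * |C + 1|) * ‖x‖) ^ 2 = ‖x‖ ^ 2 + |C| ^ 2 * ‖x‖ ^ 2 +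
      4 * (|C + 1| ^ 2 * ‖x‖ ^ 2) + (2 * |C| + 4 * |C + 1| + 4 * |C| * |C + 1|) * ‖x‖ ^ 2 := by
    ring
  rw [e2]
  have : 0 ≤ (2 * |C| + 4 * |C + 1| + 4 * |C| * |C + 1|) * ‖x‖ ^ 2 := by positivity
  linarith

theorem norm_le_l2sum_fam (H1 : ∀ x (A : Finset Γ), ∑ γ ∈ A, |f γ x| ≤ C * ‖x‖) (x : X) :
    ‖x‖ ≤ l2sum (fam f v) x := by
  apply Real.le_sqrt_of_sq_le
  exact (summable_fam (v := v) H1 x).le_tsum (Sum.inl ()) (fun _ _ => sq_nonneg _)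

/-- The gap: for `x` and finitely many `γ` with `f γ x ≠ 0` there is a level set. -/
theorem exists_level (H1 : ∀ x (A : Finset Γ), ∑ γ ∈ A, |f γ x| ≤ C * ‖x‖) (x : X)
    (A₀ : Finset Γ) (hA₀ : ∀ γ ∈ A₀, f γ x ≠ 0) :
    ∃ (A : Finset Γ) (a b : ℝ), A₀ ⊆ A ∧ 0 ≤ b ∧ b < a ∧ (∀ γ ∈ A, a ≤ |f γ x|) ∧
      ∀ γ, γ ∉ A → |f γ x| ≤ b := by
  classical
  -- a lower bound on `A₀`
  obtain ⟨a, ha, haA⟩ : ∃ a : ℝ, 0 < a ∧ ∀ γ ∈ A₀, a ≤ |f γ x| := by
    rcases A₀.eq_empty_or_nonempty with h | h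
    · exact ⟨1, one_pos, by simp [h]⟩
    · obtain ⟨γ₀, hγ₀, hmin⟩ := A₀.exists_min_image (fun γ => |f γ x|) h
      exact ⟨|f γ₀ x|, abs_pos.mpr (hA₀ γ₀ hγ₀), hmin⟩
  have hfin : ∀ t : ℝ, 0 < t → {γ | t ≤ |f γ x|}.Finite := by
    intro t ht
    have h1 := (summable_f H1 x).tendsto_cofinite_zero
    have h2 := h1.eventually (gt_mem_nhds ht)
    have h3 : {γ | ¬ |f γ x| < t}.Finite := h2
    refine h3.subset ?_
    intro γ hγ
    exact not_lt.mpr hγ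
  have hA := hfin a ha
  have hB := hfin (a / 2) (by linarith)
  let A := hA.toFinset
  let B := hB.toFinset
  have memA : ∀ γ, γ ∈ A ↔ a ≤ |f γ x| := fun γ => by simp [A]
  have memB : ∀ γ, γ ∈ B ↔ a / 2 ≤ |f γ x| := fun γ => by simp [B]
  obtain ⟨b, hb0, hba, hbB⟩ : ∃ b : ℝ, 0 ≤ b ∧ b < a ∧ ∀ γ, γ ∉ A → |f γ x| ≤ b := by
    rcases (B \ A).eq_empty_or_nonempty with h | h
    · refine ⟨a / 2, by linarith, by linarith, fun γ hγ => ?_⟩
      by_contra hcon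
      push Not at hcon
      have : γ ∈ B \ A := Finset.mem_sdiff.mpr ⟨(memB γ).mpr hcon.le, hγ⟩
      rw [h] at this
      simp at this
    · obtain ⟨γ₀, hγ₀, hmax⟩ := (B \ A).exists_max_image (fun γ => |f γ x|) h
      have h1 := Finset.mem_sdiff.mp hγ₀
      have h2 : |f γ₀ x| < a := not_le.mp fun h => h1.2 ((memA γ₀).mpr h)
      have h3 : a / 2 ≤ |f γ₀ x| := (memB γ₀).mp h1.1
      refine ⟨|f γ₀ x|, abs_nonneg _, h2, fun γ hγ => ?_⟩
      by_cases hγB : γ ∈ B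
      · exact hmax γ (Finset.mem_sdiff.mpr ⟨hγB, hγ⟩)
      · have : |f γ x| < a / 2 := not_le.mp fun h => hγB ((memB γ).mpr h)
        linarith
  exact ⟨A, a, b, fun γ hγ => (memA γ).mpr (haA γ hγ), hb0, hba,
    fun γ hγ => (memA γ).mp hγ, hbB⟩

/-- At a level set the supremum `G` is attained. -/
theorem G_eq (H1 : ∀ x (A : Finset Γ), ∑ γ ∈ A, |f γ x| ≤ C * ‖x‖) (x : X)
    (A : Finset Γ) (a b : ℝ) (hb : 0 ≤ b) (hba : b < a) (hA : ∀ γ ∈ A, a ≤ |f γ x|)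
    (hA' : ∀ γ, γ ∉ A → |f γ x| ≤ b) (m : ℕ) (hm : (1 / ((m : ℝ) + 1)) * ‖x‖ ≤ a - b) :
    G f v A.card m x = gA f v A m x := by
  classical
  have : Nonempty {B : Finset Γ // B.card ≤ A.card} := ⟨⟨A, le_rfl⟩⟩
  refine le_antisymm (ciSup_le fun B => ?_) ?_
  · by_cases hBA : B.1 = A
    · rw [hBA]
    · -- `S_B ≤ S_A - (a - b)`
      have hcard : (B.1 \ A).card ≤ (A \ B.1).card := by
        have h1 := Finset.card_sdiff_add_card_inter B.1 A
        have h2 := Finset.card_sdiff_add_card_inter A B.1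
        rw [Finset.inter_comm] at h2
        have := B.2
        omega
      have hpos : 1 ≤ (A \ B.1).card := by
        by_contra hcon
        have h0 : (A \ B.1).card = 0 := by omega
        have h1 : (B.1 \ A).card = 0 := by omega
        rw [Finset.card_eq_zero, Finset.sdiff_eq_empty_iff_subset] at h0 h1
        exact hBA (Finset.Subset.antisymm h1 h0)
      have e1 : ∑ γ ∈ A, |f γ x| = ∑ γ ∈ A \ B.1, |f γ x| + ∑ γ ∈ A ∩ B.1, |f γ x| := by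
        rw [add_comm]
        exact (Finset.sum_inter_add_sum_sdiff A B.1 _).symm
      have e2 : ∑ γ ∈ B.1, |f γ x| = ∑ γ ∈ B.1 \ A, |f γ x| + ∑ γ ∈ A ∩ B.1, |f γ x| := by
        rw [Finset.inter_comm, add_comm]
        exact (Finset.sum_inter_add_sum_sdiff B.1 A _).symm
      have l1 : ((A \ B.1).card : ℝ) * a ≤ ∑ γ ∈ A \ B.1, |f γ x| := by
        rw [← nsmul_eq_mul]
        exact Finset.card_nsmul_le_sum _ _ _ fun γ hγ => hA γ (Finset.mem_sdiff.mp hγ).1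
      have l2 : ∑ γ ∈ B.1 \ A, |f γ x| ≤ ((B.1 \ A).card : ℝ) * b := by
        rw [← nsmul_eq_mul]
        exact Finset.sum_le_card_nsmul _ _ _ fun γ hγ => hA' γ (Finset.mem_sdiff.mp hγ).2
      have l3 : ((B.1 \ A).card : ℝ) * b ≤ ((A \ B.1).card : ℝ) * b :=
        mul_le_mul_of_nonneg_right (by exact_mod_cast hcard) hb
      have l4 : (1 : ℝ) ≤ ((A \ B.1).card : ℝ) := by exact_mod_cast hpos
      have l5 : ∑ γ ∈ B.1, |f γ x| + (a - b) ≤ ∑ γ ∈ A, |f γ x| := by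
        rw [e1, e2]
        nlinarith
      have l6 : infDist x (span ℝ (v '' (B.1 : Set Γ)) : Set X) ≤ ‖x‖ := by
        have := infDist_le_dist_of_mem (x := x) (zero_mem (span ℝ (v '' (B.1 : Set Γ))))
        rwa [dist_zero_right] at this
      have l7 : (1 / ((m : ℝ) + 1)) * infDist x (span ℝ (v '' (B.1 : Set Γ)) : Set X) ≤
          (1 / ((m : ℝ) + 1)) * ‖x‖ := mul_le_mul_of_nonneg_left l6 (by positivity)
      have l8 : 0 ≤ (1 / ((m : ℝ) + 1)) * infDist x (span ℝ (v '' (A : Set Γ)) : Set X) :=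
        mul_nonneg (by positivity) infDist_nonneg
      unfold gA
      linarith
  · exact le_ciSup (G_bdd H1 A.card m x) ⟨A, le_rfl⟩

/-- **LUR renorming.** -/
theorem lur_renorm [CompleteSpace X]
    (H1 : ∀ x (A : Finset Γ), ∑ γ ∈ A, |f γ x| ≤ C * ‖x‖)
    (H2 : ∀ x, x ∈ closure (span ℝ (v '' {γ | f γ x ≠ 0}) : Set X)) :
    IsSemi (l2sum (fam f v)) ∧ (∀ x, ‖x‖ ≤ l2sum (fam f v) x) ∧
    (∀ x, l2sum (fam f v) x ≤ (1 + |C| + 2 * |C + 1|) * ‖x‖) ∧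
    ∀ (x : X) (y : ℕ → X), l2sum (fam f v) x = 1 → (∀ n, l2sum (fam f v) (y n) = 1) →
      Tendsto (fun n => l2sum (fam f v) (y n + x)) atTop (𝓝 2) → Tendsto y atTop (𝓝 x) := by
  classical
  refine ⟨isSemi_l2sum (isSemi_fam H1) (summable_fam H1), norm_le_l2sum_fam H1,
    l2sum_fam_le H1, ?_⟩
  intro x y hx hy hxy
  have hcoord := tendsto_coord (isSemi_fam (v := v) H1) (summable_fam H1) x y hx hy hxy
  have hdef := defect_tendsto (isSemi_fam (v := v) H1) (summable_fam H1) x y hx hy hxy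
  -- coordinatewise convergence
  have hf : ∀ γ, Tendsto (fun n => f γ (y n)) atTop (𝓝 (f γ x)) := by
    intro γ
    have h := hdef (Sum.inr (Sum.inl γ))
    have h1 : Tendsto (fun n => (f γ (y n) - f γ x) ^ 2) atTop (𝓝 0) := by
      refine h.congr fun n => ?_
      show 2 * |f γ x| ^ 2 + 2 * |f γ (y n)| ^ 2 - |f γ (y n + x)| ^ 2 = _
      rw [sq_abs, sq_abs, sq_abs, map_add]
      ring
    have h2 : Tendsto (fun n => |f γ (y n) - f γ x|) atTop (𝓝 0) := by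
      have := h1.sqrt
      simp only [Real.sqrt_sq_eq_abs, Real.sqrt_zero] at this
      exact this
    have h4 : Tendsto (fun n => f γ (y n) - f γ x) atTop (𝓝 0) :=
      (tendsto_zero_iff_abs_tendsto_zero _).mpr h2
    have := h4.add_const (f γ x)
    simpa using this
  have hG : ∀ n m, Tendsto (fun k => G f v n m (y k)) atTop (𝓝 (G f v n m x)) := by
    intro n m
    have h := hcoord (Sum.inr (Sum.inr (n, m)))
    have hc : ((1 / 2 : ℝ) ^ n * (1 / 2) ^ m) ≠ 0 := by positivity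
    have h1 := h.const_mul ((1 / 2 : ℝ) ^ n * (1 / 2) ^ m)⁻¹
    refine (h1.congr fun k => ?_).trans_eq ?_
    · show ((1 / 2 : ℝ) ^ n * (1 / 2) ^ m)⁻¹ * (((1 / 2 : ℝ) ^ n * (1 / 2) ^ m) * G f v n m (y k)) = _
      rw [← mul_assoc, inv_mul_cancel₀ hc, one_mul]
    · show 𝓝 (((1 / 2 : ℝ) ^ n * (1 / 2) ^ m)⁻¹ * (((1 / 2 : ℝ) ^ n * (1 / 2) ^ m) * G f v n m x)) = _
      rw [← mul_assoc, inv_mul_cancel₀ hc, one_mul]
  -- the sequence is eventually close to finite-dimensional subspaces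
  have hclose : ∀ ε > 0, ∃ A : Finset Γ, ∀ᶠ k in atTop,
      infDist (y k) (span ℝ (v '' (A : Set Γ)) : Set X) < ε := by
    intro ε hε
    -- finite subset approximating `x`
    obtain ⟨A₀, hA₀, hA₀'⟩ : ∃ A₀ : Finset Γ, (∀ γ ∈ A₀, f γ x ≠ 0) ∧
        infDist x (span ℝ (v '' (A₀ : Set Γ)) : Set X) < ε := by
      have h := H2 x
      rw [Metric.mem_closure_iff] at h
      obtain ⟨w, hw, hw'⟩ := h ε hε
      have hw2 : w ∈ span ℝ (v '' {γ | f γ x ≠ 0}) := hw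
      rw [Submodule.mem_span_image_iff_exists_fun] at hw2
      obtain ⟨t, ht, c, hc⟩ := hw2
      refine ⟨t, fun γ hγ => ht hγ, ?_⟩
      refine lt_of_le_of_lt (infDist_le_dist_of_mem (y := w) ?_) hw'
      show w ∈ span ℝ (v '' (t : Set Γ))
      rw [← hc]
      refine Submodule.sum_mem _ fun γ _ => Submodule.smul_mem _ _ (subset_span ⟨γ, γ.2, rfl⟩)
    obtain ⟨A, a, b, hAA, hb0, hba, hA, hA'⟩ := exists_level H1 x A₀ hA₀
    have hdA : infDist x (span ℝ (v '' (A : Set Γ)) : Set X) < ε := by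
      refine lt_of_le_of_lt ?_ hA₀'
      refine infDist_le_infDist_of_subset ?_ ⟨0, zero_mem (span ℝ (v '' (A₀ : Set Γ)))⟩
      exact span_mono (image_mono (by exact_mod_cast hAA))
    obtain ⟨m, hm⟩ : ∃ m : ℕ, (1 / ((m : ℝ) + 1)) * ‖x‖ ≤ a - b := by
      obtain ⟨m, hm⟩ := exists_nat_gt (‖x‖ / (a - b))
      refine ⟨m, ?_⟩
      have hab : 0 < a - b := by linarith
      rw [div_lt_iff₀ hab] at hm
      rw [one_div, inv_mul_le_iff₀ (by positivity)]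
      nlinarith
    have hGx := G_eq (v := v) H1 x A a b hb0 hba hA hA' m hm
    refine ⟨A, ?_⟩
    have hS : Tendsto (fun k => ∑ γ ∈ A, |f γ (y k)|) atTop (𝓝 (∑ γ ∈ A, |f γ x|)) :=
      tendsto_finsetSum _ fun γ _ => (hf γ).abs
    have hlim : Tendsto (fun k => ((m : ℝ) + 1) * (G f v A.card m (y k) - ∑ γ ∈ A, |f γ (y k)|))
        atTop (𝓝 (infDist x (span ℝ (v '' (A : Set Γ)) : Set X))) := by
      have h1 := ((hG A.card m).sub hS).const_mul ((m : ℝ) + 1)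
      have h2 : ((m : ℝ) + 1) * (G f v A.card m x - ∑ γ ∈ A, |f γ x|) =
          infDist x (span ℝ (v '' (A : Set Γ)) : Set X) := by
        rw [hGx]
        unfold gA
        rw [add_sub_cancel_left, ← mul_assoc, mul_one_div_cancel (by positivity), one_mul]
      rwa [h2] at h1
    filter_upwards [hlim.eventually (gt_mem_nhds hdA)] with k hk
    refine lt_of_le_of_lt ?_ hk
    have h1 : gA f v A m (y k) ≤ G f v A.card m (y k) :=
      le_ciSup (G_bdd H1 A.card m (y k)) ⟨A, le_rfl⟩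
    unfold gA at h1
    have h2 : (1 / ((m : ℝ) + 1)) * infDist (y k) (span ℝ (v '' (A : Set Γ)) : Set X) ≤
        G f v A.card m (y k) - ∑ γ ∈ A, |f γ (y k)| := by linarith
    rw [one_div, inv_mul_le_iff₀ (by positivity)] at h2
    exact h2
  -- total boundedness
  have hybound : ∀ n, ‖y n‖ ≤ 1 := fun n => (norm_le_l2sum_fam (v := v) H1 (y n)).trans (hy n).le
  have htb : TotallyBounded (range y) := by
    rw [Metric.totallyBounded_iff]
    intro ε hε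
    obtain ⟨A, hA⟩ := hclose (ε / 3) (by linarith)
    obtain ⟨n₀, hn₀⟩ := eventually_atTop.mp hA
    let W := span ℝ (v '' (A : Set Γ))
    have : FiniteDimensional ℝ W := by
      apply FiniteDimensional.span_of_finite
      exact (A.finite_toSet).image v
    have hcpt : IsCompact ((closedBall (0 : W) (1 + ε)) : Set W) := isCompact_closedBall 0 (1 + ε)
    have hcptX : IsCompact ((Subtype.val : W → X) '' (closedBall (0 : W) (1 + ε))) :=
      hcpt.image continuous_subtype_val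
    obtain ⟨t, htfin, ht⟩ := Metric.totallyBounded_iff.mp hcptX.totallyBounded (ε / 3) (by linarith)
    refine ⟨t ∪ (y '' (Set.Iio n₀)), htfin.union ((Set.finite_Iio n₀).image y), ?_⟩
    rintro _ ⟨n, rfl⟩
    by_cases hn : n < n₀
    · refine mem_iUnion₂.mpr ⟨y n, Or.inr ⟨n, hn, rfl⟩, mem_ball_self hε⟩
    · push Not at hn
      have h1 := hn₀ n hn
      obtain ⟨w, hw, hw'⟩ := (infDist_lt_iff ⟨0, zero_mem W⟩).mp h1
      have hwn : ‖w‖ ≤ 1 + ε := by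
        have h2 : ‖w‖ ≤ ‖y n‖ + dist (y n) w := by
          rw [dist_eq_norm]
          have : w = y n - (y n - w) := by abel
          calc ‖w‖ = ‖y n - (y n - w)‖ := by rw [← this]
            _ ≤ _ := norm_sub_le _ _
        linarith [hybound n]
      have hwm : w ∈ (Subtype.val : W → X) '' (closedBall (0 : W) (1 + ε)) := by
        refine ⟨⟨w, hw⟩, ?_, rfl⟩
        rw [mem_closedBall, dist_zero_right]
        exact hwn
      obtain ⟨s, hs, hs'⟩ := mem_iUnion₂.mp (ht hwm)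
      refine mem_iUnion₂.mpr ⟨s, Or.inl hs, ?_⟩
      rw [mem_ball] at hs' ⊢
      calc dist (y n) s ≤ dist (y n) w + dist w s := dist_triangle _ _ _
        _ < ε := by linarith
  have hcomp : IsCompact (closure (range y)) :=
    htb.closure.isCompact_of_isClosed isClosed_closure
  refine hcomp.tendsto_nhds_of_unique_mapClusterPt
    (Eventually.of_forall fun n => subset_closure (mem_range_self n)) ?_
  intro z _ hz
  -- all coordinates agree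
  have hzf : ∀ γ, f γ z = f γ x := by
    intro γ
    obtain ⟨ψ, hψ, hψ'⟩ := hz.tendsto_subseq
    have h1 : Tendsto (fun n => f γ (y (ψ n))) atTop (𝓝 (f γ z)) :=
      ((f γ).continuous.tendsto z).comp hψ'
    have h2 : Tendsto (fun n => f γ (y (ψ n))) atTop (𝓝 (f γ x)) :=
      (hf γ).comp hψ.tendsto_atTop
    exact tendsto_nhds_unique h1 h2
  have h0 := H2 (z - x)
  have hempty : {γ | f γ (z - x) ≠ 0} = ∅ := by
    ext γ
    simp [map_sub, hzf γ]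
  rw [hempty, image_empty, span_empty, closure_eq_iff_isClosed.mpr (by simp)] at h0
  have : z - x = 0 := by simpa using h0
  exact sub_eq_zero.mp this

end Pool.Agent.TH345.LUR
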