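import Mathlib
import Pool.Agent.TH345.Opening.Inf

namespace Pool.Agent.TH345.LUR

open Filter Topology Metric Set Submodule

variable {M : Type*} [MetricSpace M]

/-- `f` is Lipschitz with constant `L`. -/
def LipR (L : ℝ) (f : M → ℝ) : Prop := ∀ x y, |f x - f y| ≤ L * dist x y

theorem LipR.continuous {L : ℝ} {f : M → ℝ} (hf : LipR L f) : Continuous f := by
  have : LipschitzWith (Real.toNNReal L) f := LipschitzWith.of_dist_le_mul fun x y => by
    rw [Real.dist_eq]
    refine (hf x y).trans ?_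
    exact mul_le_mul_of_nonneg_right (Real.le_coe_toNNReal L) dist_nonneg
  exact this.continuous

theorem LipR.mono {L L' : ℝ} {f : M → ℝ} (hf : LipR L f) (h : L ≤ L') : LipR L' f := fun x y =>
  (hf x y).trans (mul_le_mul_of_nonneg_right h dist_nonneg)

theorem LipR.add {L L' : ℝ} {f g : M → ℝ} (hf : LipR L f) (hg : LipR L' g) :
    LipR (L + L') (fun x => f x + g x) := fun x y => by
  have h1 := hf x y
  have h2 := hg x y
  have : f x + g x - (f y + g y) = (f x - f y) + (g x - g y) := by ring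
  rw [this, add_mul]
  exact (abs_add_le _ _).trans (add_le_add h1 h2)

theorem LipR.sub {L L' : ℝ} {f g : M → ℝ} (hf : LipR L f) (hg : LipR L' g) :
    LipR (L + L') (fun x => f x - g x) := fun x y => by
  have h1 := hf x y
  have h2 := hg x y
  have : f x - g x - (f y - g y) = (f x - f y) - (g x - g y) := by ring
  rw [this, add_mul]
  exact (abs_sub _ _).trans (add_le_add h1 h2)

theorem LipR.const_mul {L : ℝ} {f : M → ℝ} (hf : LipR L f) (c : ℝ) :
    LipR (|c| * L) (fun x => c * f x) := fun x y => by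
  rw [← mul_sub, abs_mul, mul_assoc]
  exact mul_le_mul_of_nonneg_left (hf x y) (abs_nonneg c)

theorem LipR.mul {L L' B B' : ℝ} {f g : M → ℝ} (hf : LipR L f) (hg : LipR L' g)
    (hfb : ∀ x, |f x| ≤ B) (hgb : ∀ x, |g x| ≤ B') :
    LipR (B' * L + B * L') (fun x => f x * g x) := fun x y => by
  have e : f x * g x - f y * g y = (f x - f y) * g x + f y * (g x - g y) := by ring
  rw [e, add_mul]
  refine (abs_add_le _ _).trans ?_
  rw [abs_mul, abs_mul]
  have h1 := hf x y
  have h2 := hg x y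
  have a1 : |f x - f y| * |g x| ≤ (L * dist x y) * B' :=
    mul_le_mul h1 (hgb x) (abs_nonneg _) ((abs_nonneg _).trans h1)
  have a2 : |f y| * |g x - g y| ≤ B * (L' * dist x y) :=
    mul_le_mul (hfb y) h2 (abs_nonneg _) ((abs_nonneg _).trans (hfb y))
  linarith

theorem LipR.max {L : ℝ} {f g : M → ℝ} (hf : LipR L f) (hg : LipR L g) :
    LipR L (fun x => max (f x) (g x)) := fun x y => by
  exact (abs_max_sub_max_le_max _ _ _ _).trans (max_le (hf x y) (hg x y))

theorem LipR.min {L : ℝ} {f g : M → ℝ} (hf : LipR L f) (hg : LipR L g) :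
    LipR L (fun x => min (f x) (g x)) := fun x y => by
  exact (abs_min_sub_min_le_max _ _ _ _).trans (max_le (hf x y) (hg x y))

theorem lipR_const {L : ℝ} (hL : 0 ≤ L) (c : ℝ) : LipR L (fun _ : M => c) := fun x y => by
  simp only [sub_self, abs_zero]
  exact mul_nonneg hL dist_nonneg

theorem lipR_infDist (S : Set M) : LipR 1 (fun x => infDist x S) := fun x y => by
  rw [one_mul, abs_le]
  have h1 := infDist_le_infDist_add_dist (s := S) (x := x) (y := y)
  have h2 := infDist_le_infDist_add_dist (s := S) (x := y) (y := x)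
  rw [dist_comm y x] at h2
  constructor <;> linarith

theorem lipR_iSup {ι : Type*} [Nonempty ι] {L : ℝ} (f : ι → M → ℝ) (hf : ∀ i, LipR L (f i))
    (hb : ∀ x, BddAbove (range fun i => f i x)) : LipR L (fun x => ⨆ i, f i x) := by
  have key : ∀ x y, (⨆ i, f i x) ≤ (⨆ i, f i y) + L * dist x y := by
    intro x y
    refine ciSup_le fun i => ?_
    have h1 := (abs_le.mp (hf i x y)).2
    have h2 : f i y ≤ ⨆ i, f i y := le_ciSup (hb y) i
    linarith
  intro x y
  rw [abs_le]
  have h1 := key x y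
  have h2 := key y x
  rw [dist_comm y x] at h2
  constructor <;> linarith

/-- The properties of the Lipschitz-free space which are used. -/
structure FreeData (o : M) (X : Type*) [NormedAddCommGroup X] [NormedSpace ℝ X]
    (δ : M → X) : Prop where
  base : δ o = 0
  dense : Dense (span ℝ (range δ) : Set X)
  lip : ∀ x y, ‖δ x - δ y‖ ≤ dist x y
  lift : ∀ (f : M → ℝ) (L : ℝ), 0 ≤ L → LipR L f → f o = 0 →
    ∃ φ : X →L[ℝ] ℝ, ‖φ‖ ≤ L ∧ ∀ x, φ (δ x) = f x

variable {o : M} {X : Type*} [NormedAddCommGroup X] [NormedSpace ℝ X] {δ : M → X}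

open Classical in
/-- The functional extending `f - f o`. -/
noncomputable def Lam (o : M) (δ : M → X) (f : M → ℝ) : X →L[ℝ] ℝ :=
  if h : ∃ φ : X →L[ℝ] ℝ, ∀ x, φ (δ x) = f x - f o then h.choose else 0

namespace FreeData

theorem ext' (D : FreeData o X δ) {φ ψ : X →L[ℝ] ℝ} (h : ∀ x, φ (δ x) = ψ (δ x)) : φ = ψ := by
  refine ContinuousLinearMap.ext_on D.dense ?_
  rintro _ ⟨x, rfl⟩
  exact h x

theorem lam_eq (D : FreeData o X δ) {f : M → ℝ} {φ : X →L[ℝ] ℝ}
    (h : ∀ x, φ (δ x) = f x - f o) : Lam o δ f = φ := by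
  have hex : ∃ φ : X →L[ℝ] ℝ, ∀ x, φ (δ x) = f x - f o := ⟨φ, h⟩
  rw [Lam, dif_pos hex]
  exact D.ext' fun x => by rw [hex.choose_spec x, h x]

theorem lam_apply (D : FreeData o X δ) {L : ℝ} (hL : 0 ≤ L) {f : M → ℝ} (hf : LipR L f) (x : M) :
    Lam o δ f (δ x) = f x - f o := by
  obtain ⟨φ, _, hφ⟩ := D.lift (fun x => f x - f o) L hL (fun x y => by simpa using hf x y)
    (sub_self _)
  rw [D.lam_eq hφ, hφ]

theorem lam_norm (D : FreeData o X δ) {L : ℝ} (hL : 0 ≤ L) {f : M → ℝ} (hf : LipR L f) :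
    ‖Lam o δ f‖ ≤ L := by
  obtain ⟨φ, hn, hφ⟩ := D.lift (fun x => f x - f o) L hL (fun x y => by simpa using hf x y)
    (sub_self _)
  rw [D.lam_eq hφ]
  exact hn

theorem lam_le (D : FreeData o X δ) {L : ℝ} (hL : 0 ≤ L) {f : M → ℝ} (hf : LipR L f) (m : X) :
    |Lam o δ f m| ≤ L * ‖m‖ :=
  ((Lam o δ f).le_opNorm m).trans (mul_le_mul_of_nonneg_right (D.lam_norm hL hf) (norm_nonneg _))

theorem lam_add (D : FreeData o X δ) {L L' : ℝ} (hL : 0 ≤ L) (hL' : 0 ≤ L') {f g : M → ℝ}
    (hf : LipR L f) (hg : LipR L' g) (m : X) :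
    Lam o δ (fun x => f x + g x) m = Lam o δ f m + Lam o δ g m := by
  have : Lam o δ (fun x => f x + g x) = Lam o δ f + Lam o δ g := by
    refine D.lam_eq fun x => ?_
    rw [add_apply, D.lam_apply hL hf, D.lam_apply hL' hg]
    ring
  rw [this, add_apply]

theorem lam_const_mul (D : FreeData o X δ) {L : ℝ} (hL : 0 ≤ L) {f : M → ℝ}
    (hf : LipR L f) (c : ℝ) (m : X) :
    Lam o δ (fun x => c * f x) m = c * Lam o δ f m := by
  have : Lam o δ (fun x => c * f x) = c • Lam o δ f := by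
    refine D.lam_eq fun x => ?_
    rw [smul_apply, D.lam_apply hL hf, smul_eq_mul]
    ring
  rw [this, smul_apply, smul_eq_mul]

theorem lam_zero (D : FreeData o X δ) (m : X) : Lam o δ (fun _ => (0 : ℝ)) m = 0 := by
  have : Lam o δ (fun _ => (0 : ℝ)) = 0 := D.lam_eq fun x => by simp
  rw [this]; rfl

theorem lam_sum (D : FreeData o X δ) {ι : Type*} (A : Finset ι) (f : ι → M → ℝ) {L : ℝ}
    (hL : 0 ≤ L) (hf : ∀ i, LipR L (f i)) (m : X) :
    Lam o δ (fun x => ∑ i ∈ A, f i x) m = ∑ i ∈ A, Lam o δ (f i) m := by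
  have : Lam o δ (fun x => ∑ i ∈ A, f i x) = ∑ i ∈ A, Lam o δ (f i) := by
    refine D.lam_eq fun x => ?_
    rw [sum_apply, ← Finset.sum_sub_distrib]
    exact Finset.sum_congr rfl fun i _ => D.lam_apply hL (hf i) x
  rw [this, sum_apply]

/-- Pointwise convergence with bounded Lipschitz constants implies convergence of functionals. -/
theorem lam_tendsto (D : FreeData o X δ) {ι : Type*} {l : Filter ι} {L : ℝ} (hL : 0 ≤ L)
    {f : ι → M → ℝ} {g : M → ℝ} (hf : ∀ i, LipR L (f i)) (hg : LipR L g)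
    (h : ∀ x, Tendsto (fun i => f i x) l (𝓝 (g x))) (m : X) :
    Tendsto (fun i => Lam o δ (f i) m) l (𝓝 (Lam o δ g m)) := by
  have hspan : ∀ μ ∈ span ℝ (range δ), Tendsto (fun i => Lam o δ (f i) μ) l
      (𝓝 (Lam o δ g μ)) := by
    intro μ hμ
    refine Submodule.span_induction ?_ ?_ ?_ ?_ hμ
    · rintro _ ⟨x, rfl⟩
      have e : ∀ i, Lam o δ (f i) (δ x) = f i x - f i o := fun i => D.lam_apply hL (hf i) x
      simp only [e]
      rw [D.lam_apply hL hg]
      exact (h x).sub (h o)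
    · simp only [map_zero]; exact tendsto_const_nhds
    · intro a b _ _ ha hb
      simp only [map_add]; exact ha.add hb
    · intro c a _ ha
      simp only [map_smul]; exact ha.const_smul c
  rw [Metric.tendsto_nhds]
  intro ε hε
  obtain ⟨μ, hμ, hμ'⟩ := D.dense.exists_dist_lt m (show (0 : ℝ) < ε / (3 * (L + 1)) by positivity)
  have h1 := Metric.tendsto_nhds.mp (hspan μ hμ) (ε / 3) (by linarith)
  filter_upwards [h1] with i hi
  have hd : L * ‖m - μ‖ < ε / 3 := by
    rw [dist_eq_norm, lt_div_iff₀ (by positivity)] at hμ'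
    nlinarith [norm_nonneg (m - μ)]
  have a1 := D.lam_le hL (hf i) (m - μ)
  have a2 := D.lam_le hL hg (m - μ)
  rw [map_sub] at a1 a2
  rw [Real.dist_eq] at hi ⊢
  have e : Lam o δ (f i) m - Lam o δ g m = (Lam o δ (f i) m - Lam o δ (f i) μ) +
      (Lam o δ (f i) μ - Lam o δ g μ) - (Lam o δ g m - Lam o δ g μ) := by ring
  rw [e]
  have b1 := abs_sub (Lam o δ (f i) m - Lam o δ (f i) μ + (Lam o δ (f i) μ - Lam o δ g μ))
    (Lam o δ g m - Lam o δ g μ)
  have b2 := abs_add_le (Lam o δ (f i) m - Lam o δ (f i) μ) (Lam o δ (f i) μ - Lam o δ g μ)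
  linarith

end FreeData

/-- `g` is bounded, nonnegative and Lipschitz, and all `g h` are annihilated by `m`. -/
structure InIdeal (o : M) (δ : M → X) (m : X) (g : M → ℝ) : Prop where
  nonneg : ∀ x, 0 ≤ g x
  bdd : ∃ B, ∀ x, |g x| ≤ B
  lip : ∃ L, 0 ≤ L ∧ LipR L g
  zero : ∀ (h : M → ℝ) (B L : ℝ), (∀ x, |h x| ≤ B) → 0 ≤ L → LipR L h →
    Lam o δ (fun x => g x * h x) m = 0

theorem InIdeal.of_le (D : FreeData o X δ) {m : X} {g : M → ℝ} (hg : InIdeal o δ m g)
    {f : M → ℝ} {B L C : ℝ} (hfB : ∀ x, |f x| ≤ B) (hL : 0 ≤ L) (hfL : LipR L f)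
    (hC : 0 ≤ C) (hfg : ∀ x, |f x| ≤ C * g x) : Lam o δ f m = 0 := by
  obtain ⟨Bg, hBg⟩ := hg.bdd
  obtain ⟨Lg, hLg0, hLg⟩ := hg.lip
  -- `q n = f / (1 + (n+1) g)`
  let q : ℕ → M → ℝ := fun n x => f x / (1 + ((n : ℝ) + 1) * g x)
  have hden : ∀ (n : ℕ) x, 1 ≤ 1 + ((n : ℝ) + 1) * g x := by
    intro n x
    have : 0 ≤ ((n : ℝ) + 1) * g x := mul_nonneg (by positivity) (hg.nonneg x)
    linarith
  have hqLip : ∀ n, LipR (L + C * Lg) (q n) := by
    intro n x y
    set N : ℝ := (n : ℝ) + 1 with hN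
    have dx : 1 ≤ 1 + N * g x := hden n x
    have dy : 1 ≤ 1 + N * g y := hden n y
    have hN0 : 0 < N := by positivity
    have hnx : 1 + N * g x ≠ 0 := by linarith
    have hny : 1 + N * g y ≠ 0 := by linarith
    have e : q n x - q n y = (f x - f y) / (1 + N * g x) +
        f y * (N * (g y - g x)) / ((1 + N * g x) * (1 + N * g y)) := by
      show f x / (1 + N * g x) - f y / (1 + N * g y) = _
      field_simp
      ring
    rw [e, add_mul L (C * Lg)]
    refine (abs_add_le _ _).trans (add_le_add ?_ ?_)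
    · rw [abs_div, abs_of_pos (by linarith : (0 : ℝ) < 1 + N * g x)]
      refine (div_le_self (abs_nonneg _) dx).trans (hfL x y)
    · rw [abs_div, abs_of_pos (by positivity : (0 : ℝ) < (1 + N * g x) * (1 + N * g y)),
        div_le_iff₀ (by positivity), abs_mul, abs_mul, abs_of_pos hN0]
      have h1 := hfg y
      have h2 := hLg y x
      rw [dist_comm] at h2
      have hgy := hg.nonneg y
      have h3 : |f y| * (N * |g y - g x|) ≤ (C * g y) * (N * (Lg * dist x y)) := by
        refine mul_le_mul h1 ?_ (by positivity) (by positivity)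
        exact mul_le_mul_of_nonneg_left h2 hN0.le
      have h4 : (C * g y) * (N * (Lg * dist x y)) = (C * Lg * dist x y) * (N * g y) := by ring
      have h5 : N * g y ≤ (1 + N * g x) * (1 + N * g y) := by nlinarith
      have h6 : 0 ≤ C * Lg * dist x y := by positivity
      calc |f y| * (N * |g y - g x|) ≤ (C * Lg * dist x y) * (N * g y) := by rw [← h4]; exact h3
        _ ≤ (C * Lg * dist x y) * ((1 + N * g x) * (1 + N * g y)) :=
          mul_le_mul_of_nonneg_left h5 h6
  -- `f - q n = g * (stuff)` is annihilated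
  have hz : ∀ n, Lam o δ (fun x => f x + (-1) * q n x) m = 0 := by
    intro n
    set N : ℝ := (n : ℝ) + 1 with hN
    have hN0 : 0 < N := by positivity
    have e : (fun x => f x + (-1) * q n x) = fun x => g x * (N * q n x) := by
      ext x
      have dx : 1 ≤ 1 + N * g x := hden n x
      have hne : 1 + N * g x ≠ 0 := by linarith
      show f x + (-1) * (f x / (1 + N * g x)) = g x * (N * (f x / (1 + N * g x)))
      field_simp
      ring
    rw [e]
    refine hg.zero (fun x => N * q n x) (N * B) (|N| * (L + C * Lg)) ?_ (by positivity)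
      ((hqLip n).const_mul N)
    intro x
    rw [abs_mul, abs_of_pos hN0]
    refine mul_le_mul_of_nonneg_left ?_ hN0.le
    show |f x / (1 + N * g x)| ≤ B
    have dx := hden n x
    rw [abs_div, abs_of_pos (by linarith : (0 : ℝ) < 1 + N * g x)]
    exact (div_le_self (abs_nonneg _) dx).trans (hfB x)
  -- pointwise convergence
  have hlim : ∀ x, Tendsto (fun n => f x + (-1) * q n x) atTop (𝓝 (f x)) := by
    intro x
    have hq : Tendsto (fun n => q n x) atTop (𝓝 0) := by
      rcases (hg.nonneg x).eq_or_lt with h0 | hpos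
      · have hf0 : f x = 0 := by
          have := hfg x
          rw [← h0, mul_zero] at this
          exact abs_nonpos_iff.mp this
        simp [q, hf0]
      · have h1 : Tendsto (fun n : ℕ => 1 + ((n : ℝ) + 1) * g x) atTop atTop := by
          refine tendsto_atTop_add_const_left _ _ ?_
          refine Tendsto.atTop_mul_const hpos ?_
          exact tendsto_atTop_add_const_right _ _ tendsto_natCast_atTop_atTop
        exact tendsto_const_nhds.div_atTop h1
    have := (hq.const_mul (-1)).const_add (f x)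
    simpa using this
  have hconv := D.lam_tendsto (l := atTop) (L := L + |(-1 : ℝ)| * (L + C * Lg)) (by positivity)
    (fun n => hfL.add ((hqLip n).const_mul (-1))) (hfL.mono (by
      have : 0 ≤ |(-1 : ℝ)| * (L + C * Lg) := by positivity
      linarith)) hlim m
  simp only [hz] at hconv
  exact (tendsto_nhds_unique hconv tendsto_const_nhds)

theorem InIdeal.of_le' (D : FreeData o X δ) {m : X} {g : M → ℝ} (hg : InIdeal o δ m g)
    {f : M → ℝ} {B L C : ℝ} (hf0 : ∀ x, 0 ≤ f x) (hfB : ∀ x, |f x| ≤ B) (hL : 0 ≤ L)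
    (hfL : LipR L f) (hC : 0 ≤ C) (hfg : ∀ x, |f x| ≤ C * g x) : InIdeal o δ m f := by
  refine ⟨hf0, ⟨B, hfB⟩, ⟨L, hL, hfL⟩, ?_⟩
  intro h B' L' hB' hL' hhL
  have hB0 : ∀ x, 0 ≤ B := fun x => (abs_nonneg _).trans (hfB x)
  have hB'0 : 0 ≤ B' := (abs_nonneg _).trans (hB' o)
  have hBo := hB0 o
  refine hg.of_le D (B := B * B') (L := B' * L + B * L') (C := C * B') ?_ (by positivity)
    (hfL.mul hhL hfB hB') (by positivity) ?_
  · intro x
    rw [abs_mul]
    exact mul_le_mul (hfB x) (hB' x) (abs_nonneg _) hBo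
  · intro x
    rw [abs_mul]
    have := mul_le_mul (hfg x) (hB' x) (abs_nonneg _) (mul_nonneg hC (hg.nonneg x))
    linarith

theorem InIdeal.add (D : FreeData o X δ) {m : X} {f g : M → ℝ} (hf : InIdeal o δ m f)
    (hg : InIdeal o δ m g) : InIdeal o δ m (fun x => f x + g x) := by
  obtain ⟨Bf, hBf⟩ := hf.bdd
  obtain ⟨Lf, hLf0, hLf⟩ := hf.lip
  obtain ⟨Bg, hBg⟩ := hg.bdd
  obtain ⟨Lg, hLg0, hLg⟩ := hg.lip
  have hBf0 : 0 ≤ Bf := (abs_nonneg _).trans (hBf o)
  have hBg0 : 0 ≤ Bg := (abs_nonneg _).trans (hBg o)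
  refine ⟨fun x => add_nonneg (hf.nonneg x) (hg.nonneg x), ⟨Bf + Bg, fun x => ?_⟩,
    ⟨Lf + Lg, by positivity, hLf.add hLg⟩, ?_⟩
  · exact (abs_add_le _ _).trans (add_le_add (hBf x) (hBg x))
  · intro h B L hB hL hh
    have hB0 : 0 ≤ B := (abs_nonneg _).trans (hB o)
    have e : (fun x => (f x + g x) * h x) = fun x => f x * h x + g x * h x := by
      ext x; ring
    rw [e, D.lam_add (L := B * Lf + Bf * L) (L' := B * Lg + Bg * L) (by positivity) (by positivity)
      (hLf.mul hh hBf hB) (hLg.mul hh hBg hB), hf.zero h B L hB hL hh, hg.zero h B L hB hL hh,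
      add_zero]

end Pool.Agent.TH345.LUR
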