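import Mathlib
import Pool.Agent.TH345.LUR.Free

namespace Pool.Agent.TH345.LUR

open Filter Topology Metric Set Submodule

variable {M : Type*} [MetricSpace M] {o : M} {X : Type*} [NormedAddCommGroup X] [NormedSpace ℝ X]
  {δ : M → X}

/-- The set of the 1-Lipschitz members of the ideal with values in `[0, 1]`. -/
def Unit1 (o : M) (δ : M → X) (m : X) : Set (M → ℝ) :=
  {g | InIdeal o δ m g ∧ (∀ x, g x ≤ 1) ∧ LipR 1 g}

theorem zero_mem_unit1 (D : FreeData o X δ) (m : X) : (fun _ => (0 : ℝ)) ∈ Unit1 o δ m := by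
  refine ⟨⟨fun _ => le_rfl, ⟨0, fun _ => by simp⟩, ⟨0, le_rfl, lipR_const le_rfl 0⟩, ?_⟩,
    fun _ => zero_le_one, lipR_const zero_le_one 0⟩
  intro h B L _ _ _
  have : (fun x => (0 : ℝ) * h x) = fun _ => (0 : ℝ) := by ext x; ring
  rw [this]
  exact D.lam_zero m

theorem max_mem_unit1 (D : FreeData o X δ) {m : X} {f g : M → ℝ} (hf : f ∈ Unit1 o δ m)
    (hg : g ∈ Unit1 o δ m) : (fun x => max (f x) (g x)) ∈ Unit1 o δ m := by
  refine ⟨?_, fun x => max_le (hf.2.1 x) (hg.2.1 x), hf.2.2.max hg.2.2⟩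
  refine (hf.1.add D hg.1).of_le' D (B := 1) (L := 1) (C := 1) ?_ ?_ zero_le_one
    (hf.2.2.max hg.2.2) zero_le_one ?_
  · intro x; exact le_max_of_le_left (hf.1.nonneg x)
  · intro x
    rw [abs_of_nonneg (le_max_of_le_left (hf.1.nonneg x))]
    exact max_le (hf.2.1 x) (hg.2.1 x)
  · intro x
    rw [abs_of_nonneg (le_max_of_le_left (hf.1.nonneg x)), one_mul]
    have h1 := hf.1.nonneg x
    have h2 := hg.1.nonneg x
    exact max_le (by linarith) (by linarith)

/-- The largest 1-Lipschitz function with values in `[0,1]` in the ideal. -/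
noncomputable def ustar (o : M) (δ : M → X) (m : X) (x : M) : ℝ :=
  ⨆ g : Unit1 o δ m, g.1 x

section ustar

variable (D : FreeData o X δ) (m : X)
include D

theorem ustar_bdd (x : M) : BddAbove (range fun g : Unit1 o δ m => g.1 x) := by
  refine ⟨1, ?_⟩
  rintro _ ⟨g, rfl⟩
  exact g.2.2.1 x

theorem le_ustar {g : M → ℝ} (hg : g ∈ Unit1 o δ m) (x : M) : g x ≤ ustar o δ m x :=
  le_ciSup (ustar_bdd D m x) ⟨g, hg⟩

theorem ustar_nonneg (x : M) : 0 ≤ ustar o δ m x := le_ustar D m (zero_mem_unit1 D m) x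

theorem ustar_le_one (x : M) : ustar o δ m x ≤ 1 := by
  have : Nonempty (Unit1 o δ m) := ⟨⟨_, zero_mem_unit1 D m⟩⟩
  exact ciSup_le fun g => g.2.2.1 x

theorem ustar_lip : LipR 1 (ustar o δ m) := by
  have : Nonempty (Unit1 o δ m) := ⟨⟨_, zero_mem_unit1 D m⟩⟩
  exact lipR_iSup _ (fun g => g.2.2.2) (ustar_bdd D m)

theorem exists_approx (F : Finset M) (η : ℝ) (hη : 0 < η) :
    ∃ g ∈ Unit1 o δ m, ∀ x ∈ F, ustar o δ m x - η < g x := by
  classical
  have : Nonempty (Unit1 o δ m) := ⟨⟨_, zero_mem_unit1 D m⟩⟩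
  induction F using Finset.induction_on with
  | empty => exact ⟨_, zero_mem_unit1 D m, by simp⟩
  | insert a F _ ih =>
    obtain ⟨g, hg, hgF⟩ := ih
    obtain ⟨g', hg'⟩ := exists_lt_of_lt_ciSup (show ustar o δ m a - η < ⨆ g : Unit1 o δ m, g.1 a by
      show ustar o δ m a - η < ustar o δ m a; linarith)
    refine ⟨_, max_mem_unit1 D hg g'.2, fun x hx => ?_⟩
    rw [Finset.mem_insert] at hx
    rcases hx with rfl | hx
    · exact lt_max_of_lt_right hg'
    · exact lt_max_of_lt_left (hgF x hx)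

theorem ustar_mem : ustar o δ m ∈ Unit1 o δ m := by
  classical
  refine ⟨⟨ustar_nonneg D m, ⟨1, fun x => ?_⟩, ⟨1, zero_le_one, ustar_lip D m⟩, ?_⟩,
    ustar_le_one D m, ustar_lip D m⟩
  · rw [abs_of_nonneg (ustar_nonneg D m x)]; exact ustar_le_one D m x
  intro h B L hB hL hh
  have hB0 : 0 ≤ B := (abs_nonneg _).trans (hB o)
  have hex : ∀ p : Finset M × ℕ, ∃ g ∈ Unit1 o δ m, ∀ x ∈ p.1,
      ustar o δ m x - 1 / ((p.2 : ℝ) + 1) < g x := fun p =>
    exists_approx D m p.1 _ (by positivity)
  choose g hg hg' using hex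
  have hconv : ∀ x, Tendsto (fun p => g p x) atTop (𝓝 (ustar o δ m x)) := by
    intro x
    have h1 : Tendsto (fun p : Finset M × ℕ => ustar o δ m x - 1 / ((p.2 : ℝ) + 1)) atTop
        (𝓝 (ustar o δ m x - 0)) := by
      refine tendsto_const_nhds.sub ?_
      exact tendsto_one_div_add_atTop_nhds_zero_nat.comp
        (by rw [← prod_atTop_atTop_eq]; exact tendsto_snd)
    rw [sub_zero] at h1
    refine tendsto_of_tendsto_of_tendsto_of_le_of_le' h1 tendsto_const_nhds ?_ ?_
    · filter_upwards [eventually_ge_atTop (({x} : Finset M), (0 : ℕ))] with p hp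
      exact (hg' p x (hp.1 (Finset.mem_singleton_self x))).le
    · exact Eventually.of_forall fun p => le_ustar D m (hg p) x
  have h2 := D.lam_tendsto (l := atTop) (L := B * 1 + 1 * L) (by positivity)
    (f := fun (p : Finset M × ℕ) x => g p x * h x) (g := fun x => ustar o δ m x * h x)
    (fun p => (hg p).2.2.mul hh (fun x => by
      rw [abs_of_nonneg ((hg p).1.nonneg x)]; exact (hg p).2.1 x) hB)
    ((ustar_lip D m).mul hh (fun x => by
      rw [abs_of_nonneg (ustar_nonneg D m x)]; exact ustar_le_one D m x) hB)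
    (fun x => (hconv x).mul_const _) m
  have h3 : ∀ p : Finset M × ℕ, Lam o δ (fun x => g p x * h x) m = 0 := fun p =>
    (hg p).1.zero h B L hB hL hh
  simp only [h3] at h2
  exact tendsto_nhds_unique h2 tendsto_const_nhds

/-- Away from the zero set the function `ustar` is large. -/
theorem exists_smaller (x : M) (hx : ustar o δ m x < 1) :
    ∃ y, ustar o δ m y ≤ ustar o δ m x / 4 ∧ dist x y ≤ 3 / 2 * ustar o δ m x := by
  have hnn := ustar_nonneg D m x
  rcases hnn.eq_or_lt with h0 | hpos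
  · exact ⟨x, by rw [← h0]; norm_num, by rw [dist_self, ← h0]; norm_num⟩
  set t := ustar o δ m x / 4 with ht
  have ht0 : 0 < t := by positivity
  let S : Set M := {y | ustar o δ m y ≤ t}
  by_cases hS : S.Nonempty
  · have hmem : (fun y => min (infDist y S) 1) ∈ Unit1 o δ m := by
      have hlip : LipR 1 (fun y => min (infDist y S) 1) :=
        (lipR_infDist S).min (lipR_const zero_le_one 1)
      refine ⟨?_, fun y => min_le_right _ _, hlip⟩
      refine (ustar_mem D m).1.of_le' D (B := 1) (L := 1) (C := 1 / t) ?_ ?_ zero_le_one hlip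
        (by positivity) ?_
      · intro y; exact le_min infDist_nonneg zero_le_one
      · intro y
        rw [abs_of_nonneg (le_min infDist_nonneg zero_le_one)]
        exact min_le_right _ _
      · intro y
        rw [abs_of_nonneg (le_min infDist_nonneg zero_le_one)]
        by_cases hy : y ∈ S
        · rw [infDist_zero_of_mem hy]
          have := ustar_nonneg D m y
          rw [min_eq_left zero_le_one]
          positivity
        · have hy' : t < ustar o δ m y := not_le.mp hy
          refine (min_le_right _ _).trans ?_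
          rw [one_div, ← div_eq_inv_mul, one_le_div ht0]
          exact hy'.le
    have h1 := le_ustar D m hmem x
    have h2 : infDist x S ≤ ustar o δ m x := by
      rcases min_le_iff.mp h1 with h | h
      · exact h
      · exact absurd h (not_le.mpr hx)
    have h3 : infDist x S < 3 / 2 * ustar o δ m x := by linarith
    obtain ⟨y, hy, hy'⟩ := (infDist_lt_iff hS).mp h3
    exact ⟨y, hy, hy'.le⟩
  · exfalso
    have hall : ∀ y, t < ustar o δ m y := by
      intro y
      by_contra hcon
      exact hS ⟨y, not_lt.mp hcon⟩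
    have hmem : (fun _ => (1 : ℝ)) ∈ Unit1 o δ m := by
      refine ⟨?_, fun _ => le_rfl, lipR_const zero_le_one 1⟩
      refine (ustar_mem D m).1.of_le' D (B := 1) (L := 1) (C := 1 / t) (fun _ => zero_le_one)
        (fun _ => by simp) zero_le_one (lipR_const zero_le_one 1) (by positivity) ?_
      intro y
      rw [abs_one, one_div, ← div_eq_inv_mul, one_le_div ht0]
      exact (hall y).le
    have := le_ustar D m hmem x
    linarith

theorem exists_zero [CompleteSpace M] (x : M) (hx : ustar o δ m x < 1) :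
    ∃ z, ustar o δ m z = 0 ∧ dist x z ≤ 2 * ustar o δ m x := by
  choose! s hs1 hs2 using exists_smaller D m
  let y : ℕ → M := fun n => s^[n] x
  have hy : ∀ n, ustar o δ m (y n) ≤ ustar o δ m x * (1 / 4) ^ n := by
    intro n
    induction n with
    | zero => simp [y]
    | succ n ih =>
      have hnn := ustar_nonneg D m x
      have hlt : ustar o δ m (y n) < 1 := by
        refine lt_of_le_of_lt ih ?_
        have : (1 / 4 : ℝ) ^ n ≤ 1 := pow_le_one₀ (by norm_num) (by norm_num)
        nlinarith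
      have h1 := hs1 (y n) hlt
      have h2 : y (n + 1) = s (y n) := by
        show s^[n + 1] x = s (s^[n] x)
        rw [Function.iterate_succ_apply']
      rw [h2, pow_succ]
      linarith
  have hd : ∀ n, dist (y n) (y (n + 1)) ≤ (3 / 2 * ustar o δ m x) * (1 / 4) ^ n := by
    intro n
    have hnn := ustar_nonneg D m x
    have hlt : ustar o δ m (y n) < 1 := by
      refine lt_of_le_of_lt (hy n) ?_
      have : (1 / 4 : ℝ) ^ n ≤ 1 := pow_le_one₀ (by norm_num) (by norm_num)
      nlinarith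
    have h2 : y (n + 1) = s (y n) := by
      show s^[n + 1] x = s (s^[n] x)
      rw [Function.iterate_succ_apply']
    rw [h2]
    refine (hs2 (y n) hlt).trans ?_
    have := hy n
    nlinarith
  have hcau := cauchySeq_of_le_geometric (1 / 4) (3 / 2 * ustar o δ m x) (by norm_num) hd
  obtain ⟨z, hz⟩ := cauchySeq_tendsto_of_complete hcau
  refine ⟨z, ?_, ?_⟩
  · have h1 : Tendsto (fun n => ustar o δ m (y n)) atTop (𝓝 (ustar o δ m z)) :=
      ((ustar_lip D m).continuous.tendsto z).comp hz
    have h2 : Tendsto (fun n : ℕ => ustar o δ m x * (1 / 4 : ℝ) ^ n) atTop (𝓝 (ustar o δ m x * 0)) :=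
      (tendsto_pow_atTop_nhds_zero_of_lt_one (by norm_num) (by norm_num)).const_mul _
    rw [mul_zero] at h2
    have h3 : ustar o δ m z ≤ 0 := le_of_tendsto_of_tendsto' h1 h2 hy
    exact le_antisymm h3 (ustar_nonneg D m z)
  · have h1 := dist_le_of_le_geometric_of_tendsto₀ (1 / 4) (3 / 2 * ustar o δ m x)
      (by norm_num) hd hz
    have h2 : (3 / 2 * ustar o δ m x) / (1 - 1 / 4) = 2 * ustar o δ m x := by ring
    rw [h2] at h1
    exact h1

end ustar

/-- The abstract properties of the bump functions. -/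
structure BumpSystem (ι : Type*) (M : Type*) [MetricSpace M] (w : ι → M → M → ℝ) : Prop where
  nonneg : ∀ i z x, 0 ≤ w i z x
  le_one : ∀ i z x, w i z x ≤ 1
  lip : ∀ i z, LipR 1 (w i z)
  sep : ∀ i z z', z ≠ z' → ∀ x y, w i z x ≠ 0 → w i z' y ≠ 0 → w i z x + w i z' y ≤ 2 * dist x y
  base : ∀ x, ∀ ε > 0, ∃ i z, w i z x ≠ 0 ∧ ∀ y, w i z y ≠ 0 → dist y z < ε

/-- The abstract properties of a countable total family. -/
structure TotalFamily (J : Type*) (M : Type*) [MetricSpace M] (h : J → M → ℝ) : Prop where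
  bdd : ∀ c x, |h c x| ≤ 1
  lip : ∀ c, LipR 1 (h c)
  approx : ∀ (g : M → ℝ), (∀ x, |g x| ≤ 1) → LipR 1 g → ∀ (F : Finset M) (ε : ℝ), 0 < ε →
    ∃ c, ∀ x ∈ F, |h c x - g x| ≤ ε

theorem lam_all_zero {J : Type*} {h : J → M → ℝ} (D : FreeData o X δ) (T : TotalFamily J M h)
    {m : X} {w : M → ℝ} (hw0 : ∀ x, |w x| ≤ 1) (hwL : LipR 1 w)
    (hz : ∀ c, Lam o δ (fun x => w x * h c x) m = 0) (g : M → ℝ) (B L : ℝ)
    (hB : ∀ x, |g x| ≤ B) (hL : 0 ≤ L) (hg : LipR L g) :
    Lam o δ (fun x => w x * g x) m = 0 := by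
  classical
  have hB0 : 0 ≤ B := (abs_nonneg _).trans (hB o)
  set K : ℝ := max (max B L) 1 with hK
  have hK1 : 1 ≤ K := le_max_right _ _
  have hKB : B ≤ K := (le_max_left _ _).trans (le_max_left _ _)
  have hKL : L ≤ K := (le_max_right _ _).trans (le_max_left _ _)
  have hK0 : 0 < K := by linarith
  let g' : M → ℝ := fun x => K⁻¹ * g x
  have hg'1 : ∀ x, |g' x| ≤ 1 := by
    intro x
    show |K⁻¹ * g x| ≤ 1
    rw [abs_mul, abs_of_pos (inv_pos.mpr hK0), inv_mul_le_iff₀ hK0, mul_one]
    exact (hB x).trans hKB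
  have hg'L : LipR 1 g' := by
    have h1 := hg.const_mul K⁻¹
    refine h1.mono ?_
    rw [abs_of_pos (inv_pos.mpr hK0), inv_mul_le_iff₀ hK0, mul_one]
    exact hKL
  have hex : ∀ p : Finset M × ℕ, ∃ c, ∀ x ∈ p.1, |h c x - g' x| ≤ 1 / ((p.2 : ℝ) + 1) :=
    fun p => T.approx g' hg'1 hg'L p.1 _ (by positivity)
  choose c hc using hex
  have hconv : ∀ x, Tendsto (fun p => h (c p) x) atTop (𝓝 (g' x)) := by
    intro x
    have h1 : Tendsto (fun p : Finset M × ℕ => 1 / ((p.2 : ℝ) + 1)) atTop (𝓝 0) :=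
      tendsto_one_div_add_atTop_nhds_zero_nat.comp
        (by rw [← prod_atTop_atTop_eq]; exact tendsto_snd)
    rw [tendsto_iff_dist_tendsto_zero]
    refine tendsto_of_tendsto_of_tendsto_of_le_of_le' tendsto_const_nhds h1 ?_ ?_
    · exact Eventually.of_forall fun p => dist_nonneg
    · filter_upwards [eventually_ge_atTop (({x} : Finset M), (0 : ℕ))] with p hp
      rw [Real.dist_eq]
      exact hc p x (hp.1 (Finset.mem_singleton_self x))
  have h2 := D.lam_tendsto (l := atTop) (L := 1 * 1 + 1 * 1) (by norm_num)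
    (f := fun (p : Finset M × ℕ) x => w x * h (c p) x) (g := fun x => w x * g' x)
    (fun p => hwL.mul (T.lip (c p)) hw0 (T.bdd (c p))) (hwL.mul hg'L hw0 hg'1)
    (fun x => (hconv x).const_mul _) m
  simp only [hz] at h2
  have h3 : Lam o δ (fun x => w x * g' x) m = 0 := tendsto_nhds_unique h2 tendsto_const_nhds
  have h4 : (fun x => w x * g x) = fun x => K * (w x * g' x) := by
    ext x
    show w x * g x = K * (w x * (K⁻¹ * g x))
    field_simp
  rw [h4, D.lam_const_mul (L := 1 * 1 + 1 * 1) (by norm_num) (hwL.mul hg'L hw0 hg'1), h3, mul_zero]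

/-- **Support lemma.** -/
theorem mem_closure_span [CompleteSpace M] {ι J : Type*} {w : ι → M → M → ℝ} {h : J → M → ℝ}
    (D : FreeData o X δ) (W : BumpSystem ι M w) (T : TotalFamily J M h) (m : X) :
    m ∈ closure (span ℝ (δ '' {z | ∃ i c, Lam o δ (fun x => w i z x * h c x) m ≠ 0}) : Set X) := by
  classical
  set V : Set M := {z | ∃ i c, Lam o δ (fun x => w i z x * h c x) m ≠ 0} with hV
  by_contra hm
  -- separate
  have hr : 0 < infDist m (span ℝ (δ '' V) : Set X) := by
    have h0 : 0 ≤ infDist m (span ℝ (δ '' V) : Set X) := infDist_nonneg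
    rcases h0.eq_or_lt with h | h
    · exact absurd ((mem_closure_iff_infDist_zero ⟨0, zero_mem (span ℝ (δ '' V))⟩).mpr h.symm) hm
    · exact h
  obtain ⟨φ, hφ1, hφ0, hφm⟩ := Pool.Agent.TH345.Opening.exists_functional (span ℝ (δ '' V)) m
    (infDist m (span ℝ (δ '' V) : Set X)) (fun v hv => by
      rw [← dist_eq_norm]; exact infDist_le_dist_of_mem hv)
  let f : M → ℝ := fun x => φ (δ x)
  have hfo : f o = 0 := by show φ (δ o) = 0; rw [D.base, map_zero]
  have hfL : LipR 1 f := fun x y => by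
    show |φ (δ x) - φ (δ y)| ≤ 1 * dist x y
    rw [← map_sub, one_mul]
    exact (hφ1 _).trans (D.lip x y)
  have hφLam : Lam o δ f = φ := D.lam_eq fun x => by rw [hfo, sub_zero]
  have hfV : ∀ z ∈ V, f z = 0 := fun z hz => hφ0 _ (subset_span ⟨z, hz, rfl⟩)
  have hfcl : ∀ z ∈ closure V, f z = 0 := by
    intro z hz
    have hclosed : IsClosed {z | f z = 0} := isClosed_eq hfL.continuous continuous_const
    exact closure_minimal (show V ⊆ {z | f z = 0} from hfV) hclosed hz
  -- the zero set of `ustar` is contained in the closure of `V`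
  have hZ : ∀ x, ustar o δ m x = 0 → x ∈ closure V := by
    intro x hx
    by_contra hxV
    obtain ⟨ε, hε, hball⟩ : ∃ ε > 0, ∀ z ∈ V, ε ≤ dist x z := by
      rw [Metric.mem_closure_iff] at hxV
      push Not at hxV
      exact hxV
    obtain ⟨i, z, hwx, hwy⟩ := W.base x ε hε
    have hzV : z ∉ V := by
      intro hz
      have h1 := hwy x hwx
      have h2 := hball z hz
      linarith
    have hzero : ∀ c, Lam o δ (fun x => w i z x * h c x) m = 0 := by
      intro c
      by_contra hcon
      exact hzV ⟨i, c, hcon⟩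
    have habs : ∀ x, |w i z x| ≤ 1 := fun x => by
      rw [abs_of_nonneg (W.nonneg i z x)]; exact W.le_one i z x
    have hmem : w i z ∈ Unit1 o δ m := by
      refine ⟨⟨W.nonneg i z, ⟨1, habs⟩, ⟨1, zero_le_one, W.lip i z⟩, ?_⟩, W.le_one i z, W.lip i z⟩
      intro g B L hB hL hg
      exact lam_all_zero D T habs (W.lip i z) hzero g B L hB hL hg
    have h1 := le_ustar D m hmem x
    rw [hx] at h1
    exact hwx (le_antisymm h1 (W.nonneg i z x))
  -- `f` is dominated by `ustar`
  have hdom : ∀ x, ustar o δ m x < 1 → |f x| ≤ 2 * ustar o δ m x := by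
    intro x hx
    obtain ⟨z, hz, hxz⟩ := exists_zero D m x hx
    have h1 := hfL x z
    rw [hfcl z (hZ z hz), sub_zero, one_mul] at h1
    exact h1.trans hxz
  -- truncations
  let fN : ℕ → M → ℝ := fun n x => max (-(n : ℝ)) (min (f x) n)
  have hfNL : ∀ n, LipR 1 (fN n) := fun n =>
    (lipR_const zero_le_one _).max (hfL.min (lipR_const zero_le_one _))
  have hfNb : ∀ n x, |fN n x| ≤ n := by
    intro n x
    have : (0 : ℝ) ≤ n := Nat.cast_nonneg n
    rw [abs_le]
    exact ⟨le_max_left _ _, max_le (by linarith) (min_le_right _ _)⟩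
  have hfNf : ∀ n x, |fN n x| ≤ |f x| := by
    intro n x
    have h0 : (0 : ℝ) ≤ n := Nat.cast_nonneg n
    have := le_abs_self (f x)
    have := neg_abs_le (f x)
    have := abs_nonneg (f x)
    rw [abs_le]
    refine ⟨?_, ?_⟩
    · refine le_max_of_le_right (le_min (by linarith) (by linarith))
    · refine max_le (by linarith) ((min_le_left _ _).trans (by linarith))
  have hzero : ∀ n, Lam o δ (fN n) m = 0 := by
    intro n
    have h0 : (0 : ℝ) ≤ n := Nat.cast_nonneg n
    refine (ustar_mem D m).1.of_le D (B := n) (L := 1) (C := 2 + n) (hfNb n) zero_le_one (hfNL n)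
      (by positivity) ?_
    intro x
    have hu := ustar_nonneg D m x
    rcases (ustar_le_one D m x).eq_or_lt with h1 | h1
    · rw [h1, mul_one]
      linarith [hfNb n x]
    · have := (hfNf n x).trans (hdom x h1)
      nlinarith
  have hconv : ∀ x, Tendsto (fun n => fN n x) atTop (𝓝 (f x)) := by
    intro x
    refine tendsto_const_nhds.congr' ?_
    obtain ⟨N, hN⟩ := exists_nat_ge |f x|
    filter_upwards [eventually_ge_atTop N] with n hn
    have h1 : |f x| ≤ n := hN.trans (by exact_mod_cast hn)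
    rw [abs_le] at h1
    show f x = max (-(n : ℝ)) (min (f x) n)
    rw [min_eq_left h1.2, max_eq_right h1.1]
  have h1 := D.lam_tendsto (l := atTop) zero_le_one hfNL hfL hconv m
  simp only [hzero] at h1
  have h2 : Lam o δ f m = 0 := tendsto_nhds_unique h1 tendsto_const_nhds
  rw [hφLam] at h2
  linarith

end Pool.Agent.TH345.LUR
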