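import Mathlib
import Pool.Agent.TH345.LUR.Support
import Pool.Agent.TH345.LUR.Main

namespace Pool.Agent.TH345.LUR

open Filter Topology Metric Set Submodule

variable {M : Type*} [MetricSpace M]

/-- `A (k, j) z`: the points `x` for which `z` is the first point at distance less than
`1/(k+1)`, with a margin `3 (1/2)^j`. -/
def Acell (i : ℕ × ℕ) (z : M) : Set M :=
  {x | dist x z < 1 / ((i.1 : ℝ) + 1) - 3 * (1 / 2) ^ i.2 ∧
    ∀ z', WellOrderingRel z' z → 1 / ((i.1 : ℝ) + 1) ≤ dist x z'}

open Classical in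
/-- The bump functions. -/
noncomputable def bump (i : ℕ × ℕ) (z x : M) : ℝ :=
  if (Acell i z).Nonempty then max ((1 / 2) ^ i.2 - infDist x (Acell i z)) 0 else 0

theorem bump_pos_iff (i : ℕ × ℕ) (z x : M) (h : bump i z x ≠ 0) :
    ∃ a ∈ Acell i z, dist x a < (1 / 2) ^ i.2 := by
  unfold bump at h
  split_ifs at h with hne
  · have h1 : infDist x (Acell i z) < (1 / 2) ^ i.2 := by
      by_contra hcon
      push Not at hcon
      exact h (max_eq_right (by linarith))
    exact (infDist_lt_iff hne).mp h1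
  · exact absurd rfl h

theorem bump_le (i : ℕ × ℕ) (z x : M) : bump i z x ≤ (1 / 2) ^ i.2 := by
  unfold bump
  split_ifs with hne
  · have := infDist_nonneg (x := x) (s := Acell i z)
    exact max_le (by linarith) (by positivity)
  · positivity

theorem bumpSystem : BumpSystem (ℕ × ℕ) M bump := by
  refine ⟨?_, ?_, ?_, ?_, ?_⟩
  · intro i z x
    unfold bump
    split_ifs
    · exact le_max_right _ _
    · exact le_rfl
  · intro i z x
    exact (bump_le i z x).trans (pow_le_one₀ (by norm_num) (by norm_num))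
  · intro i z
    unfold bump
    split_ifs
    · refine LipR.max ?_ (lipR_const zero_le_one 0)
      intro x y
      have h1 := lipR_infDist (Acell i z) x y
      have e : (1 / 2 : ℝ) ^ i.2 - infDist x (Acell i z) - ((1 / 2) ^ i.2 - infDist y (Acell i z)) =
          -(infDist x (Acell i z) - infDist y (Acell i z)) := by ring
      rw [e, abs_neg]
      exact h1
    · exact lipR_const zero_le_one 0
  · -- separation
    have key : ∀ (i : ℕ × ℕ) (z z' : M), WellOrderingRel z z' → ∀ x y, bump i z x ≠ 0 →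
        bump i z' y ≠ 0 → (1 / 2 : ℝ) ^ i.2 ≤ dist x y := by
      intro i z z' hzz x y hx hy
      obtain ⟨a, ha, hxa⟩ := bump_pos_iff i z x hx
      obtain ⟨a', ha', hya⟩ := bump_pos_iff i z' y hy
      have h1 := ha.1
      have h2 := ha'.2 z hzz
      have h3 := dist_triangle a' a z
      have h4 := dist_triangle a' y a
      have h5 := dist_triangle y x a
      rw [dist_comm a' y] at h4
      rw [dist_comm y x] at h5
      linarith
    intro i z z' hzz x y hx hy
    have hd : (1 / 2 : ℝ) ^ i.2 ≤ dist x y := by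
      rcases trichotomous_of (WellOrderingRel : M → M → Prop) z z' with h | h | h
      · exact key i z z' h x y hx hy
      · exact absurd h hzz
      · rw [dist_comm]
        exact key i z' z h y x hy hx
    have h1 := bump_le i z x
    have h2 := bump_le i z' y
    linarith
  · intro x ε hε
    obtain ⟨k, hk⟩ := exists_nat_one_div_lt hε
    have hr : (0 : ℝ) < 1 / ((k : ℝ) + 1) := by positivity
    -- the first point near `x`
    let S : Set M := {z | dist x z < 1 / ((k : ℝ) + 1)}
    have hS : S.Nonempty := ⟨x, by show dist x x < _; rw [dist_self]; exact hr⟩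
    have wf : WellFounded (WellOrderingRel : M → M → Prop) := IsWellFounded.wf
    let z := wf.min S hS
    have hzS : dist x z < 1 / ((k : ℝ) + 1) := wf.min_mem S hS
    have hzmin : ∀ z', WellOrderingRel z' z → 1 / ((k : ℝ) + 1) ≤ dist x z' := by
      intro z' hz'
      by_contra hcon
      push Not at hcon
      exact wf.not_lt_min S hcon hz'
    obtain ⟨j, hj⟩ : ∃ j : ℕ, 3 * (1 / 2 : ℝ) ^ j < 1 / ((k : ℝ) + 1) - dist x z := by
      obtain ⟨j, hj⟩ := exists_pow_lt_of_lt_one
        (show (0 : ℝ) < (1 / ((k : ℝ) + 1) - dist x z) / 3 by linarith) (show (1 / 2 : ℝ) < 1 by norm_num)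
      exact ⟨j, by linarith⟩
    have hxA : x ∈ Acell (k, j) z := ⟨by show dist x z < 1 / ((k : ℝ) + 1) - 3 * (1 / 2) ^ j; linarith,
      hzmin⟩
    refine ⟨(k, j), z, ?_, ?_⟩
    · have hne : (Acell (k, j) z).Nonempty := ⟨x, hxA⟩
      unfold bump
      rw [if_pos hne, infDist_zero_of_mem hxA, sub_zero]
      have : (0 : ℝ) < (1 / 2) ^ j := by positivity
      exact (lt_max_of_lt_left this).ne'
    · intro y hy
      obtain ⟨a, ha, hya⟩ := bump_pos_iff (k, j) z y hy
      have h1 : dist a z < 1 / ((k : ℝ) + 1) - 3 * (1 / 2) ^ j := ha.1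
      have h2 := dist_triangle y a z
      have h3 : dist y a < (1 / 2 : ℝ) ^ j := hya
      have : (0 : ℝ) < (1 / 2) ^ j := by positivity
      linarith

/-- Summability of the coordinates over `z`. -/
theorem sum_coord_le {o : M} {X : Type*} [NormedAddCommGroup X] [NormedSpace ℝ X]
    {δ : M → X} {ι : Type*} {w : ι → M → M → ℝ} (D : FreeData o X δ) (W : BumpSystem ι M w)
    (i : ι) (h : M → ℝ) (hb : ∀ x, |h x| ≤ 1) (hh : LipR 1 h) (m : X) (A : Finset M) :
    ∑ z ∈ A, |Lam o δ (fun x => w i z x * h x) m| ≤ 2 * ‖m‖ := by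
  classical
  have habs : ∀ z x, |w i z x| ≤ 1 := fun z x => by
    rw [abs_of_nonneg (W.nonneg i z x)]; exact W.le_one i z x
  have hwh : ∀ z, LipR 2 (fun x => w i z x * h x) := fun z => by
    have := (W.lip i z).mul hh (habs z) hb
    norm_num at this
    exact this
  -- signs
  let s : M → ℝ := fun z => if 0 ≤ Lam o δ (fun x => w i z x * h x) m then 1 else -1
  have hs : ∀ z, |s z| = 1 := by
    intro z
    by_cases h0 : 0 ≤ Lam o δ (fun x => w i z x * h x) m
    · simp [s, h0]
    · simp [s, h0]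
  have hs' : ∀ z, s z * Lam o δ (fun x => w i z x * h x) m =
      |Lam o δ (fun x => w i z x * h x) m| := by
    intro z
    by_cases h0 : 0 ≤ Lam o δ (fun x => w i z x * h x) m
    · simp [s, h0, abs_of_nonneg h0]
    · simp only [s, h0, if_false]
      rw [abs_of_neg (not_le.mp h0)]
      ring
  have hsL : ∀ z, LipR 2 (fun x => s z * (w i z x * h x)) := by
    intro z
    have := (hwh z).const_mul (s z)
    rw [hs z, one_mul] at this
    exact this
  let F : M → ℝ := fun x => ∑ z ∈ A, s z * (w i z x * h x)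
  -- at each point at most one term
  have hone : ∀ x z, w i z x ≠ 0 → ∀ z', z' ≠ z → w i z' x = 0 := by
    intro x z hz z' hz'
    by_contra hcon
    have h1 := W.sep i z z' hz'.symm x x hz hcon
    rw [dist_self, mul_zero] at h1
    have h2 := W.nonneg i z x
    have h3 := W.nonneg i z' x
    have : w i z x = 0 := le_antisymm (by linarith) h2
    exact hz this
  have hF1 : ∀ x z, z ∈ A → w i z x ≠ 0 → F x = s z * (w i z x * h x) := by
    intro x z hz hzx
    refine Finset.sum_eq_single z ?_ ?_
    · intro z' _ hz'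
      rw [hone x z hzx z' hz']; ring
    · intro h; exact absurd hz h
  have hF0 : ∀ x, (∀ z ∈ A, w i z x = 0) → F x = 0 := by
    intro x hx
    refine Finset.sum_eq_zero fun z hz => ?_
    rw [hx z hz]; ring
  have hFL : LipR 2 F := by
    intro x y
    by_cases hx : ∃ z ∈ A, w i z x ≠ 0
    · obtain ⟨z, hz, hzx⟩ := hx
      rw [hF1 x z hz hzx]
      by_cases hy : ∃ z' ∈ A, w i z' y ≠ 0
      · obtain ⟨z', hz', hzy⟩ := hy
        rw [hF1 y z' hz' hzy]
        by_cases hzz : z = z'
        · subst hzz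
          exact hsL z x y
        · have h1 := W.sep i z z' hzz x y hzx hzy
          have a1 : |s z * (w i z x * h x)| ≤ w i z x := by
            rw [abs_mul, hs, one_mul, abs_mul, abs_of_nonneg (W.nonneg i z x)]
            exact mul_le_of_le_one_right (W.nonneg i z x) (hb x)
          have a2 : |s z' * (w i z' y * h y)| ≤ w i z' y := by
            rw [abs_mul, hs, one_mul, abs_mul, abs_of_nonneg (W.nonneg i z' y)]
            exact mul_le_of_le_one_right (W.nonneg i z' y) (hb y)
          exact (abs_sub _ _).trans ((add_le_add a1 a2).trans h1)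
      · push Not at hy
        rw [hF0 y hy]
        have := hsL z x y
        simp only [hy z hz, zero_mul, mul_zero] at this
        exact this
    · push Not at hx
      rw [hF0 x hx]
      by_cases hy : ∃ z' ∈ A, w i z' y ≠ 0
      · obtain ⟨z', hz', hzy⟩ := hy
        rw [hF1 y z' hz' hzy]
        have := hsL z' x y
        simp only [hx z' hz', zero_mul, mul_zero] at this
        exact this
      · push Not at hy
        rw [hF0 y hy]
        simp only [sub_self, abs_zero]
        positivity
  calc ∑ z ∈ A, |Lam o δ (fun x => w i z x * h x) m|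
      = ∑ z ∈ A, Lam o δ (fun x => s z * (w i z x * h x)) m := by
        refine Finset.sum_congr rfl fun z _ => ?_
        rw [D.lam_const_mul (by norm_num) (hwh z), hs']
    _ = Lam o δ F m := (D.lam_sum A (fun z x => s z * (w i z x * h x)) (by norm_num) hsL m).symm
    _ ≤ |Lam o δ F m| := le_abs_self _
    _ ≤ 2 * ‖m‖ := D.lam_le (by norm_num) hFL m

/-- The LUR renorming for metric spaces with a countable total family. -/
theorem exists_lur {J : Type*} [Countable J] [CompleteSpace M] {o : M} {X : Type*}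
    [NormedAddCommGroup X] [NormedSpace ℝ X] [CompleteSpace X] {δ : M → X} {h : J → M → ℝ}
    (D : FreeData o X δ) (T : TotalFamily J M h) :
    ∃ N : X → ℝ, (∀ x y, N (x + y) ≤ N x + N y) ∧ (∀ (c : ℝ) x, N (c • x) = |c| * N x) ∧
      (∀ x, ‖x‖ ≤ N x) ∧ (∃ K, ∀ x, N x ≤ K * ‖x‖) ∧
      ∀ (x : X) (y : ℕ → X), N x = 1 → (∀ n, N (y n) = 1) →
        Tendsto (fun n => N (y n + x)) atTop (𝓝 2) → Tendsto y atTop (𝓝 x) := by
  classical
  have W : BumpSystem (ℕ × ℕ) M bump := bumpSystem
  obtain ⟨e, he⟩ := exists_injective_nat ((ℕ × ℕ) × J)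
  let Γ := ((ℕ × ℕ) × J) × M
  let f : Γ → X →L[ℝ] ℝ := fun γ =>
    ((1 / 2 : ℝ) ^ (e γ.1)) • Lam o δ (fun x => bump γ.1.1 γ.2 x * h γ.1.2 x)
  let v : Γ → X := fun γ => δ γ.2
  have H1 : ∀ x (A : Finset Γ), ∑ γ ∈ A, |f γ x| ≤ 4 * ‖x‖ := by
    intro x A
    have hsub : A ⊆ (A.image Prod.fst) ×ˢ (A.image Prod.snd) := by
      intro γ hγ
      exact Finset.mem_product.mpr ⟨Finset.mem_image_of_mem _ hγ, Finset.mem_image_of_mem _ hγ⟩
    calc ∑ γ ∈ A, |f γ x| ≤ ∑ γ ∈ (A.image Prod.fst) ×ˢ (A.image Prod.snd), |f γ x| :=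
          Finset.sum_le_sum_of_subset_of_nonneg hsub fun _ _ _ => abs_nonneg _
      _ = ∑ p ∈ A.image Prod.fst, ∑ z ∈ A.image Prod.snd, |f (p, z) x| := Finset.sum_product _ _ _
      _ ≤ ∑ p ∈ A.image Prod.fst, (1 / 2 : ℝ) ^ (e p) * (2 * ‖x‖) := by
          refine Finset.sum_le_sum fun p _ => ?_
          have h1 := sum_coord_le D W p.1 (h p.2) (T.bdd p.2) (T.lip p.2) x (A.image Prod.snd)
          have h2 : ∀ z, |f (p, z) x| =
              (1 / 2 : ℝ) ^ (e p) * |Lam o δ (fun x => bump p.1 z x * h p.2 x) x| := by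
            intro z
            show |((1 / 2 : ℝ) ^ (e p)) * _| = _
            rw [abs_mul, abs_of_pos (by positivity)]
            rfl
          simp only [h2]
          rw [← Finset.mul_sum]
          exact mul_le_mul_of_nonneg_left h1 (by positivity)
      _ = (∑ n ∈ (A.image Prod.fst).image e, (1 / 2 : ℝ) ^ n) * (2 * ‖x‖) := by
          rw [Finset.sum_image (fun a _ b _ hab => he hab), Finset.sum_mul]
      _ ≤ 2 * (2 * ‖x‖) := by
          refine mul_le_mul_of_nonneg_right ?_ (by positivity)
          have := summable_geometric_two.sum_le_tsum ((A.image Prod.fst).image e)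
            (fun _ _ => by positivity)
          rwa [tsum_geometric_two] at this
      _ = 4 * ‖x‖ := by ring
  have H2 : ∀ x, x ∈ closure (span ℝ (v '' {γ | f γ x ≠ 0}) : Set X) := by
    intro x
    have h1 := mem_closure_span D W T x
    refine closure_mono (span_mono ?_) h1
    rintro _ ⟨z, ⟨i, c, hic⟩, rfl⟩
    refine ⟨((i, c), z), ?_, rfl⟩
    show ((1 / 2 : ℝ) ^ (e (i, c))) * _ ≠ 0
    exact mul_ne_zero (by positivity) hic
  obtain ⟨hN, hN1, hN2, hN3⟩ := lur_renorm H1 H2
  exact ⟨_, hN.add, hN.smul, hN1, ⟨_, hN2⟩, hN3⟩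

end Pool.Agent.TH345.LUR
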