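import Mathlib
import Pool.Agent.TH345.LUR.Free

/-!
A concrete model of the Lipschitz-free space.
-/

namespace Pool.Agent.TH345.LUR.Model

open Filter Topology Metric Set Submodule
open scoped ENNReal

universe u

/-- The closed unit ball of `Lip₀(M)`: the functions with Lipschitz constant at most one which
vanish at the base point `o`. -/
def LipBall (M : Type u) [MetricSpace M] (o : M) : Type u :=
  {f : M → ℝ // LipschitzWith 1 f ∧ f o = 0}

theorem abs_le_of_lipBall {M : Type u} [MetricSpace M] {o : M} (f : LipBall M o) (x y : M) :
    |f.1 x - f.1 y| ≤ dist x y := by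
  have := f.2.1.dist_le_mul x y
  rw [Real.dist_eq] at this
  simpa using this

/-- The bounded real functions on the unit ball of `Lip₀(M)`, with the supremum norm. The norm of
a functional on `Lip₀(M)` is its supremum on that ball. -/
def BallFun (M : Type u) [MetricSpace M] (o : M) : Type u := lp (fun _ : LipBall M o => ℝ) ∞

noncomputable instance (M : Type u) [MetricSpace M] (o : M) : NormedAddCommGroup (BallFun M o) :=
  inferInstanceAs (NormedAddCommGroup (lp (fun _ : LipBall M o => ℝ) ∞))

noncomputable instance (M : Type u) [MetricSpace M] (o : M) : NormedSpace ℝ (BallFun M o) :=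
  inferInstanceAs (NormedSpace ℝ (lp (fun _ : LipBall M o => ℝ) ∞))

instance (M : Type u) [MetricSpace M] (o : M) : CompleteSpace (BallFun M o) :=
  inferInstanceAs (CompleteSpace (lp (fun _ : LipBall M o => ℝ) ∞))

/-- The identity, forgetting the name. -/
def toLp {M : Type u} [MetricSpace M] {o : M} (m : BallFun M o) :
    lp (fun _ : LipBall M o => ℝ) ∞ := m

/-- The evaluation `δ(x)`, regarded as the bounded function `f ↦ f(x)` on the unit ball of
`Lip₀(M)`. -/
noncomputable def eval {M : Type u} [MetricSpace M] (o x : M) : BallFun M o :=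
  ⟨fun f => f.1 x, memℓp_infty ⟨dist x o, by
    rintro _ ⟨f, rfl⟩
    have := abs_le_of_lipBall f x o
    rw [f.2.2, sub_zero] at this
    exact this⟩⟩

/-- The closed linear span of the evaluations. -/
noncomputable def evalSpan (M : Type u) [MetricSpace M] (o : M) : Submodule ℝ (BallFun M o) :=
  (Submodule.span ℝ (Set.range (eval o))).topologicalClosure

/-- The Lipschitz-free space over `M` with base point `o`: the closed linear span of the
evaluations, with the norm of the dual of `Lip₀(M)`. -/
def LipFree (M : Type u) [MetricSpace M] (o : M) : Type u := evalSpan M o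

noncomputable instance (M : Type u) [MetricSpace M] (o : M) : NormedAddCommGroup (LipFree M o) :=
  inferInstanceAs (NormedAddCommGroup (evalSpan M o))

noncomputable instance (M : Type u) [MetricSpace M] (o : M) : NormedSpace ℝ (LipFree M o) :=
  inferInstanceAs (NormedSpace ℝ (evalSpan M o))

instance (M : Type u) [MetricSpace M] (o : M) : CompleteSpace (LipFree M o) := by
  have : CompleteSpace (evalSpan M o) := by
    unfold evalSpan
    infer_instance
  exact this

/-- The canonical map `M → F(M)`. -/
noncomputable def delta {M : Type u} [MetricSpace M] (o x : M) : LipFree M o :=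
  (⟨eval o x, Submodule.le_topologicalClosure _ (Submodule.subset_span ⟨x, rfl⟩)⟩ : evalSpan M o)

/-- The inclusion. -/
noncomputable def incl (M : Type u) [MetricSpace M] (o : M) : LipFree M o →ₗ[ℝ] BallFun M o :=
  (evalSpan M o).subtype

theorem incl_mem {M : Type u} [MetricSpace M] {o : M} (m : LipFree M o) :
    incl M o m ∈ closure (Submodule.span ℝ (Set.range (eval o)) : Set (BallFun M o)) :=
  (show m.1 ∈ evalSpan M o from m.2)

theorem incl_norm {M : Type u} [MetricSpace M] {o : M} (m : LipFree M o) :
    ‖incl M o m‖ = ‖m‖ := rfl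

theorem incl_delta {M : Type u} [MetricSpace M] (o x : M) :
    incl M o (delta o x) = eval o x := rfl

theorem freeData (M : Type u) [MetricSpace M] (o : M) :
    FreeData o (LipFree M o) (delta o) := by
  refine ⟨?_, ?_, ?_, ?_⟩
  · apply Subtype.ext
    refine lp.ext ?_
    ext f
    exact f.2.2
  · intro m
    rw [Metric.mem_closure_iff]
    intro ε hε
    have hm := incl_mem m
    rw [Metric.mem_closure_iff] at hm
    obtain ⟨μ, hμ, hμ'⟩ := hm ε hε
    have hmap : (Submodule.span ℝ (Set.range (delta o))).map (incl M o) =
        Submodule.span ℝ (Set.range (eval o)) := by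
      rw [Submodule.map_span, ← Set.range_comp]
      rfl
    have hμ2 : μ ∈ (Submodule.span ℝ (Set.range (delta o))).map (incl M o) := by
      rw [hmap]; exact hμ
    obtain ⟨ν, hν, hν'⟩ := hμ2
    refine ⟨ν, hν, ?_⟩
    rw [← hν', dist_eq_norm, ← map_sub, incl_norm] at hμ'
    rwa [dist_eq_norm]
  · intro x y
    rw [← incl_norm, map_sub, incl_delta, incl_delta]
    refine lp.norm_le_of_forall_le (E := fun _ : LipBall M o => ℝ) dist_nonneg fun f => ?_
    exact abs_le_of_lipBall f x y
  · intro f L hL hf hfo
    rcases hL.eq_or_lt with h0 | hpos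
    · refine ⟨0, ContinuousLinearMap.opNorm_le_bound _ hL fun m => ?_, fun x => ?_⟩
      · show ‖(0 : ℝ)‖ ≤ L * ‖m‖
        rw [norm_zero]
        positivity
      have := hf x o
      rw [← h0, zero_mul, hfo, sub_zero] at this
      rw [abs_nonpos_iff.mp this]
      rfl
    · let f' : LipBall M o := ⟨fun x => L⁻¹ * f x, by
        refine ⟨LipschitzWith.of_dist_le_mul fun x y => ?_, by
          show L⁻¹ * f o = 0
          rw [hfo, mul_zero]⟩
        rw [Real.dist_eq, ← mul_sub, abs_mul, abs_of_pos (inv_pos.mpr hpos),
          inv_mul_le_iff₀ hpos]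
        simpa using hf x y⟩
      let lin : LipFree M o →ₗ[ℝ] ℝ :=
        { toFun := fun m => L * (show lp (fun _ : LipBall M o => ℝ) ∞ from incl M o m) f'
          map_add' := fun a b => by
            rw [map_add]
            exact mul_add L _ _
          map_smul' := fun c a => by
            rw [map_smul]
            exact mul_left_comm L c _ }
      refine ⟨lin.mkContinuous L fun m => ?_, ?_, fun x => ?_⟩
      · show |L * (show lp (fun _ : LipBall M o => ℝ) ∞ from incl M o m) f'| ≤ L * ‖m‖
        rw [abs_mul, abs_of_pos hpos]
        refine mul_le_mul_of_nonneg_left ?_ hpos.le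
        have h := lp.norm_apply_le_norm ENNReal.top_ne_zero
          (show lp (fun _ : LipBall M o => ℝ) ∞ from incl M o m) f'
        rw [Real.norm_eq_abs] at h
        exact h
      · exact LinearMap.mkContinuous_norm_le _ hpos.le _
      · show L * (L⁻¹ * f x) = f x
        rw [← mul_assoc, mul_inv_cancel₀ hpos.ne', one_mul]


end Pool.Agent.TH345.LUR.Model
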