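import Mathlib
import Pool.Agent.TH345.LUR.Model

/-!
The characterisation of the Lipschitz-free space by its norm formula.
-/

namespace Pool.Agent.TH345.LUR

open Filter Topology Metric Set Submodule
open scoped ENNReal

universe u v

variable {M : Type u} [MetricSpace M] {o : M} {X : Type v} [NormedAddCommGroup X] [NormedSpace ℝ X]
  {δ : M → X}

theorem lipR_of_lipschitzWith {f : M → ℝ} (hf : LipschitzWith 1 f) : LipR 1 f := fun x y => by
  have := hf.dist_le_mul x y
  rw [Real.dist_eq] at this
  simpa using this

theorem lipschitzWith_of_lipR {f : M → ℝ} (hf : LipR 1 f) : LipschitzWith 1 f :=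
  LipschitzWith.of_dist_le_mul fun x y => by
    rw [Real.dist_eq]
    simpa using hf x y

/-- The norm formula and density imply the properties used in the renorming. -/
theorem freeData_of_norm (h0 : δ o = 0) (hd : Dense (span ℝ (range δ) : Set X))
    (hn : ∀ a : M →₀ ℝ, IsLUB {t : ℝ | ∃ f : M → ℝ, LipschitzWith 1 f ∧ f o = 0 ∧
      t = a.sum fun x c => c * f x} ‖a.sum fun x c => c • δ x‖) : FreeData o X δ := by
  classical
  refine ⟨h0, hd, ?_, ?_⟩
  · intro x y
    have h1 := hn (Finsupp.single x 1 - Finsupp.single y 1)
    have e1 : (Finsupp.single x (1 : ℝ) - Finsupp.single y 1).sum (fun x c => c • δ x) =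
        δ x - δ y := by
      rw [Finsupp.sum_sub_index (by intro a b c; exact sub_smul _ _ _),
        Finsupp.sum_single_index (zero_smul ℝ (δ x)), Finsupp.sum_single_index (zero_smul ℝ (δ y)),
        one_smul, one_smul]
    rw [e1] at h1
    refine h1.2 ?_
    rintro _ ⟨f, hf, _, rfl⟩
    have e2 : (Finsupp.single x (1 : ℝ) - Finsupp.single y 1).sum (fun x c => c * f x) =
        f x - f y := by
      rw [Finsupp.sum_sub_index (by intro a b c; exact sub_mul _ _ _),
        Finsupp.sum_single_index (zero_mul _), Finsupp.sum_single_index (zero_mul _),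
        one_mul, one_mul]
    rw [e2]
    have := lipR_of_lipschitzWith hf x y
    rw [one_mul] at this
    exact (le_abs_self _).trans this
  · intro f L hL hf hfo
    let T : (M →₀ ℝ) →ₗ[ℝ] X := Finsupp.linearCombination ℝ δ
    let g : (M →₀ ℝ) →ₗ[ℝ] ℝ := Finsupp.linearCombination ℝ f
    have hTa : ∀ a, T a = a.sum fun x c => c • δ x := fun a => rfl
    have hga : ∀ a, g a = a.sum fun x c => c * f x := fun a => rfl
    -- the bound
    have hle : ∀ a, g a ≤ L * ‖T a‖ := by
      intro a
      rcases hL.eq_or_lt with h | hpos
      · have hf0 : ∀ x, f x = 0 := by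
          intro x
          have := hf x o
          rw [← h, zero_mul, hfo, sub_zero] at this
          exact abs_nonpos_iff.mp this
        rw [hga, ← h, zero_mul]
        simp [hf0]
      · have h1 := (hn a).1 ⟨fun x => L⁻¹ * f x, ?_, ?_, rfl⟩
        · rw [← hTa] at h1
          have e : (a.sum fun x c => c * (L⁻¹ * f x)) = L⁻¹ * g a := by
            rw [hga, Finsupp.mul_sum]
            refine Finsupp.sum_congr fun x _ => ?_
            ring
          rw [e, inv_mul_le_iff₀ hpos] at h1
          exact h1
        · refine lipschitzWith_of_lipR fun x y => ?_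
          rw [← mul_sub, abs_mul, abs_of_pos (inv_pos.mpr hpos), inv_mul_le_iff₀ hpos, one_mul]
          exact hf x y
        · show L⁻¹ * f o = 0
          rw [hfo, mul_zero]
    have habs : ∀ a, |g a| ≤ L * ‖T a‖ := by
      intro a
      rw [abs_le]
      have h1 := hle (-a)
      rw [map_neg, map_neg, norm_neg] at h1
      exact ⟨by linarith, hle a⟩
    -- the functional on the span
    obtain ⟨s, hs⟩ := T.rangeRestrict.exists_rightInverse_of_surjective T.range_rangeRestrict
    have hTs : ∀ v : LinearMap.range T, T (s v) = v := by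
      intro v
      have := LinearMap.congr_fun hs v
      exact congrArg Subtype.val this
    let ψ : LinearMap.range T →ₗ[ℝ] ℝ := g ∘ₗ s
    let ψc : LinearMap.range T →L[ℝ] ℝ := ψ.mkContinuous L fun v => by
      show |g (s v)| ≤ L * ‖v‖
      refine (habs _).trans ?_
      rw [hTs]
      rfl
    obtain ⟨φ, hφ, hφn⟩ := exists_extension_norm_eq (LinearMap.range T) ψc
    refine ⟨φ, ?_, fun x => ?_⟩
    · rw [hφn]
      exact LinearMap.mkContinuous_norm_le _ hL _
    · have hx : T (Finsupp.single x 1) = δ x := by
        show Finsupp.linearCombination ℝ δ (Finsupp.single x 1) = δ x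
        rw [Finsupp.linearCombination_single, one_smul]
      let v : LinearMap.range T := ⟨δ x, ⟨Finsupp.single x 1, hx⟩⟩
      have h1 : φ (δ x) = g (s v) := hφ v
      have h2 : g (s v) - g (Finsupp.single x 1) = 0 := by
        rw [← map_sub]
        have := habs (s v - Finsupp.single x 1)
        rw [map_sub T, hTs, hx] at this
        have e : ((v : LinearMap.range T) : X) - δ x = 0 := sub_self _
        rw [e, norm_zero, mul_zero] at this
        exact abs_nonpos_iff.mp this
      have h3 : g (Finsupp.single x 1) = f x := by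
        show Finsupp.linearCombination ℝ f (Finsupp.single x 1) = f x
        rw [Finsupp.linearCombination_single, one_smul]
      rw [h1]
      linarith

/-- The norm formula in the concrete model. -/
theorem Model.norm_formula (M : Type u) [MetricSpace M] (o : M) (a : M →₀ ℝ) :
    IsLUB {t : ℝ | ∃ f : M → ℝ, LipschitzWith 1 f ∧ f o = 0 ∧ t = a.sum fun x c => c * f x}
      ‖a.sum fun x c => c • Model.delta o x‖ := by
  classical
  have hcoord : ∀ f : Model.LipBall M o,
      (Model.toLp (Model.incl M o (a.sum fun x c => c • Model.delta o x))) f = a.sum fun x c => c * f.1 x := by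
    intro f
    have h1 : Model.incl M o (a.sum fun x c => c • Model.delta o x) =
        a.sum fun x c => c • Model.eval o x := by
      rw [map_finsuppSum]
      refine Finsupp.sum_congr fun x _ => ?_
      rw [map_smul, Model.incl_delta]
    rw [h1]
    let E : Model.BallFun M o →ₗ[ℝ] ℝ :=
      { toFun := fun m => Model.toLp m f
        map_add' := fun _ _ => rfl
        map_smul' := fun _ _ => rfl }
    show E (a.sum fun x c => c • Model.eval o x) = _
    rw [map_finsuppSum]
    refine Finsupp.sum_congr fun x _ => ?_
    rw [map_smul]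
    rfl
  constructor
  · rintro _ ⟨f, hf, hfo, rfl⟩
    let F : Model.LipBall M o := ⟨f, hf, hfo⟩
    have h1 := lp.norm_apply_le_norm ENNReal.top_ne_zero
      (Model.toLp (Model.incl M o (a.sum fun x c => c • Model.delta o x))) F
    rw [hcoord, Real.norm_eq_abs] at h1
    exact (le_abs_self _).trans h1
  · intro b hb
    have hb0 : ∀ f : Model.LipBall M o, |a.sum fun x c => c * f.1 x| ≤ b := by
      intro f
      have h1 : (a.sum fun x c => c * f.1 x) ≤ b := hb ⟨f.1, f.2.1, f.2.2, rfl⟩
      have h2 : (a.sum fun x c => c * (-f.1 x)) ≤ b :=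
        hb ⟨fun x => -f.1 x, f.2.1.neg, by show -f.1 o = 0; rw [f.2.2, neg_zero], rfl⟩
      have h3 : (a.sum fun x c => c * (-f.1 x)) = -(a.sum fun x c => c * f.1 x) := by
        simp only [mul_neg, Finsupp.sum, Finset.sum_neg_distrib]
      rw [h3] at h2
      rw [abs_le]
      exact ⟨by linarith, h1⟩
    have hb00 : 0 ≤ b := (abs_nonneg _).trans
      (hb0 ⟨fun _ => 0, LipschitzWith.const' 0, rfl⟩)
    have h1 : ‖(Model.toLp (Model.incl M o (a.sum fun x c => c • Model.delta o x)))‖ ≤ b := by
      refine lp.norm_le_of_forall_le hb00 fun f => ?_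
      rw [hcoord]
      exact hb0 f
    exact h1

end Pool.Agent.TH345.LUR
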