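import Mathlib
import Pool.Agent.TH345.LUR.Support

namespace Pool.Agent.TH345.LUR

open Filter Topology Metric Set Submodule
open scoped ENNReal

/-- Real `ℓ_∞`. -/
abbrev Linf : Type := lp (fun _ : ℕ => ℝ) ∞

/-- The distance of the first coordinates to a rational point. -/
noncomputable def gen (p : Σ n : ℕ, Fin n → ℚ) (x : Linf) : ℝ :=
  ‖(fun i : Fin p.1 => x i - (p.2 i : ℝ))‖

theorem coord_norm_le (n : ℕ) (x : Linf) : ‖(fun i : Fin n => x i)‖ ≤ ‖x‖ := by
  rw [pi_norm_le_iff_of_nonneg (norm_nonneg _)]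
  intro i
  exact lp.norm_apply_le_norm ENNReal.top_ne_zero x i

theorem gen_lip (p : Σ n : ℕ, Fin n → ℚ) : LipR 1 (gen p) := by
  intro x y
  rw [one_mul, dist_eq_norm]
  unfold gen
  refine (abs_norm_sub_norm_le _ _).trans ?_
  have e : ((fun i : Fin p.1 => x i - (p.2 i : ℝ)) - fun i : Fin p.1 => y i - (p.2 i : ℝ)) =
      fun i : Fin p.1 => (x - y) i := by
    ext i
    simp
  rw [e]
  exact coord_norm_le p.1 (x - y)

/-- The inner part of the family. -/
noncomputable def hIn (l : List ((Σ n : ℕ, Fin n → ℚ) × ℚ)) (x : Linf) : ℝ :=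
  l.foldr (fun p acc => min ((p.2 : ℝ) + gen p.1 x) acc) 1

/-- The countable total family. -/
noncomputable def hL (l : List ((Σ n : ℕ, Fin n → ℚ) × ℚ)) (x : Linf) : ℝ := max (-1) (hIn l x)

theorem hIn_le_one (l) (x : Linf) : hIn l x ≤ 1 := by
  induction l with
  | nil => exact le_rfl
  | cons p l ih => exact (min_le_right _ _).trans ih

theorem hIn_lip (l) : LipR 1 (hIn l) := by
  induction l with
  | nil => exact lipR_const zero_le_one 1
  | cons p l ih =>
    refine LipR.min (f := fun x => (p.2 : ℝ) + gen p.1 x) (g := hIn l) ?_ ih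
    intro x y
    have := gen_lip p.1 x y
    rwa [add_sub_add_left_eq_sub]

theorem hIn_le (l : List ((Σ n : ℕ, Fin n → ℚ) × ℚ)) (x : Linf) (p) (hp : p ∈ l) :
    hIn l x ≤ (p.2 : ℝ) + gen p.1 x := by
  induction l with
  | nil => simp at hp
  | cons q l ih =>
    rcases List.mem_cons.mp hp with rfl | h
    · exact min_le_left _ _
    · exact (min_le_right _ _).trans (ih h)

theorem le_hIn (l : List ((Σ n : ℕ, Fin n → ℚ) × ℚ)) (x : Linf) (c : ℝ) (hc : c ≤ 1)
    (h : ∀ p ∈ l, c ≤ (p.2 : ℝ) + gen p.1 x) : c ≤ hIn l x := by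
  induction l with
  | nil => exact hc
  | cons q l ih =>
    exact le_min (h q (List.mem_cons_self ..)) (ih fun p hp => h p (List.mem_cons_of_mem _ hp))

theorem exists_coord (x : Linf) (η : ℝ) (hη : 0 < η) :
    ∃ n : ℕ, ∀ N, n ≤ N → ‖x‖ - η ≤ ‖(fun i : Fin N => x i)‖ := by
  have hlt : ‖x‖ - η < ‖x‖ := by linarith
  rw [lp.norm_eq_ciSup x] at hlt
  obtain ⟨i, hi⟩ := exists_lt_of_lt_ciSup hlt
  refine ⟨i + 1, fun N hN => ?_⟩
  rw [lp.norm_eq_ciSup x]
  refine hi.le.trans ?_
  exact norm_le_pi_norm (fun i : Fin N => x i) ⟨i, by omega⟩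

theorem totalFamily : TotalFamily (List ((Σ n : ℕ, Fin n → ℚ) × ℚ)) Linf hL := by
  classical
  refine ⟨?_, ?_, ?_⟩
  · intro l x
    rw [abs_le]
    exact ⟨le_max_left _ _, max_le (by norm_num) (hIn_le_one l x)⟩
  · intro l
    exact (lipR_const zero_le_one (-1)).max (hIn_lip l)
  · intro g hg hgL F ε hε
    set η : ℝ := ε / 4 with hη
    have hη0 : 0 < η := by positivity
    -- number of coordinates
    have hex : ∀ q : Linf × Linf, ∃ n : ℕ, ∀ N, n ≤ N →
        ‖q.1 - q.2‖ - η ≤ ‖(fun i : Fin N => (q.1 - q.2) i)‖ :=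
      fun q => exists_coord (q.1 - q.2) η hη0
    choose nn hnn using hex
    let n : ℕ := (F ×ˢ F).sup nn
    have hn : ∀ x ∈ F, ∀ y ∈ F, ‖x - y‖ - η ≤ ‖(fun i : Fin n => (x - y) i)‖ := by
      intro x hx y hy
      exact hnn (x, y) n (Finset.le_sup (f := nn) (Finset.mem_product.mpr ⟨hx, hy⟩))
    -- rational approximations
    have hrat : ∀ t : ℝ, ∃ q : ℚ, |t - q| ≤ η := by
      intro t
      obtain ⟨q, hq1, hq2⟩ := exists_rat_btwn (show t - η < t by linarith)
      exact ⟨q, by rw [abs_le]; constructor <;> linarith⟩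
    choose rat hrat using hrat
    let ent : Linf → (Σ n : ℕ, Fin n → ℚ) × ℚ := fun x => (⟨n, fun i => rat (x i)⟩, rat (g x))
    let l := F.toList.map ent
    have hent : ∀ x y : Linf, |gen (ent y).1 x - ‖(fun i : Fin n => (x - y) i)‖| ≤ η := by
      intro x y
      show |‖(fun i : Fin n => x i - (rat (y i) : ℝ))‖ - ‖(fun i : Fin n => (x - y) i)‖| ≤ η
      refine (abs_norm_sub_norm_le _ _).trans ?_
      rw [pi_norm_le_iff_of_nonneg hη0.le]
      intro i
      have e : ((fun i : Fin n => x i - (rat (y i) : ℝ)) - fun i : Fin n => (x - y) i) i =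
          y i - (rat (y i) : ℝ) := by
        simp
      rw [e, Real.norm_eq_abs]
      exact hrat _
    refine ⟨l, fun x hx => ?_⟩
    have hup : hIn l x ≤ g x + 2 * η := by
      have hmem : ent x ∈ l := List.mem_map.mpr ⟨x, Finset.mem_toList.mpr hx, rfl⟩
      have h1 := hIn_le l x _ hmem
      have h2 := (abs_le.mp (hent x x)).2
      have h3 : ‖(fun i : Fin n => (x - x) i)‖ = 0 := by
        rw [norm_eq_zero]; ext i; simp
      rw [h3] at h2
      have h4 := (abs_le.mp (hrat (g x))).1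
      have h5 : ((ent x).2 : ℝ) = (rat (g x) : ℝ) := rfl
      rw [h5] at h1
      linarith
    have hlo : g x - 3 * η ≤ hIn l x := by
      refine le_hIn l x _ ?_ ?_
      · have := (abs_le.mp (hg x)).2; linarith
      · intro p hp
        obtain ⟨y, hy, rfl⟩ := List.mem_map.mp hp
        have hyF := Finset.mem_toList.mp hy
        have h1 := (abs_le.mp (hent x y)).1
        have h2 := hn x hx y hyF
        have h3 := (abs_le.mp (hrat (g y))).2
        have h4 := (abs_le.mp (hgL x y)).2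
        rw [one_mul, dist_eq_norm] at h4
        have h5 : ((ent y).2 : ℝ) = (rat (g y) : ℝ) := rfl
        rw [h5]
        linarith
    have hge := (abs_le.mp (hg x)).1
    rw [abs_le]
    constructor
    · have : hIn l x ≤ hL l x := le_max_right _ _
      linarith
    · have : hL l x ≤ g x + 2 * η := max_le (by linarith) hup
      linarith

end Pool.Agent.TH345.LUR
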